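import Pool.Agent.Lib.MP_33280d_mp.Spec

set_option autoImplicit false

open Complex MeasureTheory Real Filter ComplexConjugate Set Topology

namespace Pool.Agent.Lib.MP_33280d_mp

/-! ### Closedness of the fibre space -/

lemma isClosed_fibreL2 (ρ : Measure ℝ) (n : ℝ → ℕ∞) :
    IsClosed ((fibreL2 ρ n : Submodule ℂ (Lp Fibre 2 ρ)) : Set (Lp Fibre 2 ρ)) := by
  apply IsSeqClosed.isClosed
  intro F G hF hG
  have h1 : TendstoInMeasure ρ (fun k => (F k : ℝ → Fibre)) atTop G :=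
    tendstoInMeasure_of_tendsto_Lp hG
  obtain ⟨ns, -, h2⟩ := h1.exists_seq_tendsto_ae
  have h3 : ∀ᵐ E ∂ρ, ∀ k, ∀ α : ℕ, n E ≤ (α : ℕ∞) → (F k E) α = 0 := by
    rw [ae_all_iff]
    exact fun k => hF k
  show ∀ᵐ E ∂ρ, ∀ α : ℕ, n E ≤ (α : ℕ∞) → (G E) α = 0
  filter_upwards [h2, h3] with E h4 h5 α hα
  have h6 : Tendsto (fun i => (F (ns i) E) α) atTop (𝓝 ((G E) α)) := by
    have hc : Continuous (fun f : Fibre => f α) := (lp.evalCLM ℂ (fun _ : ℕ => ℂ) 2 α).continuous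
    exact (hc.tendsto _).comp h4
  have h7 : (fun i => (F (ns i) E) α) = fun _ => 0 := by
    funext i
    exact h5 (ns i) α hα
  rw [h7] at h6
  exact (tendsto_nhds_unique h6 tendsto_const_nhds)

instance (ρ : Measure ℝ) (n : ℝ → ℕ∞) : CompleteSpace (fibreL2 ρ n) :=
  (isClosed_fibreL2 ρ n).completeSpace_coe

/-! ### Continuity of the system on the circle -/

lemma gg_cont (a : ℕ → ℂ) (ha : ∀ k, ‖a k‖ < 1) (n : ℕ) :
    ContinuousOn (gg a n) (Metric.sphere 0 1) := by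
  obtain ⟨h, h1, h2, -⟩ := gg_factor a ha 0 n (by omega)
  have : gg a n = h := by
    funext z
    rw [h2, BB_zero, one_mul]
  rw [this]
  exact h1.continuousOn.mono Metric.sphere_subset_closedBall

lemma ff_cont (a : ℕ → ℂ) (ha : ∀ k, ‖a k‖ < 1) (m : ℤ) :
    ContinuousOn (ff a m) (Metric.sphere 0 1) := by
  rcases lt_or_ge m 0 with h | h
  · have : ff a m = fun z => z ^ m := by
      funext z
      exact ff_neg a h z
    rw [this]
    intro z hz
    have : z ≠ 0 := ne_zero_of_norm (by simpa using hz)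
    exact (continuousAt_zpow₀ z m (Or.inl this)).continuousWithinAt
  · obtain ⟨N, rfl⟩ := Int.eq_ofNat_of_zero_le h
    have : ff a (N : ℤ) = gg a N := by
      funext z
      exact ff_nonneg a N z
    rw [this]
    exact gg_cont a ha N

lemma mult_of_mem {E : ℝ} (hE : E ∈ Ioo (-2 : ℝ) 2) : mult E = 2 := by
  simp only [mult]
  rw [if_pos hE]

lemma mult_of_not_mem {E : ℝ} (hE : E ∉ Ioo (-2 : ℝ) 2) : mult E = 0 := by
  simp only [mult]
  rw [if_neg hE]

/-- `vec φ` as an element of the fibre space. -/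
noncomputable def V (φ : ℂ → ℂ) (hφ : ContinuousOn φ (Metric.sphere 0 1)) : fibreL2 rho mult :=
  ⟨(vec_memLp φ hφ).toLp (vec φ), by
    show ∀ᵐ E ∂rho, ∀ α : ℕ, mult E ≤ (α : ℕ∞) →
      ((((vec_memLp φ hφ).toLp (vec φ) : Lp Fibre 2 rho) : ℝ → Fibre) E) α = 0
    filter_upwards [(vec_memLp φ hφ).coeFn_toLp, ae_mem] with E h1 h2 α hα
    rw [h1]
    apply vec_apply_ge
    rw [mult_of_mem h2] at hα
    exact_mod_cast hα⟩

lemma V_coe (φ : ℂ → ℂ) (hφ : ContinuousOn φ (Metric.sphere 0 1)) :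
    ((V φ hφ : Lp Fibre 2 rho) : ℝ → Fibre) =ᵐ[rho] vec φ :=
  (vec_memLp φ hφ).coeFn_toLp

/-- inner products against `V φ` -/
lemma inner_V (φ : ℂ → ℂ) (hφ : ContinuousOn φ (Metric.sphere 0 1)) (G : fibreL2 rho mult) :
    inner ℂ (V φ hφ) G = (2 * π)⁻¹ • ∫ θ in Ioo 0 π,
      (conj (φ (Complex.exp (θ * I))) * ((G : Lp Fibre 2 rho) (2 * Real.cos θ)) 0 +
        conj (φ (Complex.exp (-θ * I))) * ((G : Lp Fibre 2 rho) (2 * Real.cos θ)) 1) := by
  rw [Submodule.coe_inner, L2.inner_def]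
  have h1 : ∀ᵐ E ∂rho, inner ℂ ((V φ hφ : Lp Fibre 2 rho) E) ((G : Lp Fibre 2 rho) E) =
      conj (φ (zpt E 0)) * ((G : Lp Fibre 2 rho) E) 0 +
        conj (φ (zpt E 1)) * ((G : Lp Fibre 2 rho) E) 1 := by
    filter_upwards [V_coe φ hφ] with E hE
    rw [hE, vec_inner]
  have h2 : AEStronglyMeasurable (fun E => conj (φ (zpt E 0)) * ((G : Lp Fibre 2 rho) E) 0 +
        conj (φ (zpt E 1)) * ((G : Lp Fibre 2 rho) E) 1) rho := by
    refine AEStronglyMeasurable.congr ?_ h1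
    exact (L2.integrable_inner (𝕜 := ℂ) (V φ hφ : Lp Fibre 2 rho) (G : Lp Fibre 2 rho)).1
  rw [integral_congr_ae h1, integral_rho h2]
  congr 1
  apply setIntegral_congr_fun measurableSet_Ioo
  intro θ hθ
  simp only [zpt_cos_zero hθ, zpt_cos_one hθ]

/-- inner products of two `V`'s -/
lemma inner_V_V (φ ψ : ℂ → ℂ) (hφ : ContinuousOn φ (Metric.sphere 0 1))
    (hψ : ContinuousOn ψ (Metric.sphere 0 1)) :
    inner ℂ (V φ hφ) (V ψ hψ) = circleAverage (fun z => conj (φ z) * ψ z) 0 1 := by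
  rw [Submodule.coe_inner, L2.inner_def]
  have h1 : ∀ᵐ E ∂rho, inner ℂ ((V φ hφ : Lp Fibre 2 rho) E) ((V ψ hψ : Lp Fibre 2 rho) E) =
      conj (φ (zpt E 0)) * ψ (zpt E 0) + conj (φ (zpt E 1)) * ψ (zpt E 1) := by
    filter_upwards [V_coe φ hφ, V_coe ψ hψ] with E hE hE'
    rw [hE, hE', vec_inner, vec_apply_zero, vec_apply_one]
  have h2 : AEStronglyMeasurable (fun E => conj (φ (zpt E 0)) * ψ (zpt E 0) +
      conj (φ (zpt E 1)) * ψ (zpt E 1)) rho := by
    refine AEStronglyMeasurable.congr ?_ h1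
    exact (L2.integrable_inner (𝕜 := ℂ) (V φ hφ : Lp Fibre 2 rho) (V ψ hψ : Lp Fibre 2 rho)).1
  have hc : ContinuousOn (fun z => conj (φ z) * ψ z) (Metric.sphere 0 1) :=
    (Complex.continuous_conj.comp_continuousOn hφ).mul hψ
  rw [integral_congr_ae h1, integral_rho h2, circleAverage_eq, ← fold hc]
  congr 1
  apply setIntegral_congr_fun measurableSet_Ioo
  intro θ hθ
  simp only [zpt_cos_zero hθ, zpt_cos_one hθ]

/-- The functions `F_m`. -/
noncomputable def FF (a : ℕ → ℂ) (ha : ∀ k, ‖a k‖ < 1) (m : ℤ) : fibreL2 rho mult :=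
  V (ff a m) (ff_cont a ha m)

lemma orthonormal_FF (a : ℕ → ℂ) (ha : ∀ k, ‖a k‖ < 1) : Orthonormal ℂ (FF a ha) := by
  classical
  rw [orthonormal_iff_ite]
  intro i j
  rw [FF, FF, inner_V_V, avg_ff a ha]

/-! ### Completeness -/

/-- Finite combinations of the system, on the circle. -/
def InSpan (a : ℕ → ℂ) (φ : ℂ → ℂ) : Prop :=
  ∃ (s : Finset ℤ) (c : ℤ → ℂ), ∀ z : ℂ, ‖z‖ = 1 → φ z = ∑ m ∈ s, c m * ff a m z

lemma inSpan_ff (a : ℕ → ℂ) (m : ℤ) : InSpan a (ff a m) :=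
  ⟨{m}, fun _ => 1, fun z _ => by simp⟩

lemma inSpan_add (a : ℕ → ℂ) {φ ψ : ℂ → ℂ} (h : InSpan a φ) (h' : InSpan a ψ) :
    InSpan a (fun z => φ z + ψ z) := by
  classical
  obtain ⟨s, c, hs⟩ := h
  obtain ⟨s', c', hs'⟩ := h'
  refine ⟨s ∪ s', fun m => (if m ∈ s then c m else 0) + (if m ∈ s' then c' m else 0), ?_⟩
  intro z hz
  have e1 : ∑ m ∈ s ∪ s', (if m ∈ s then c m else 0) * ff a m z = ∑ m ∈ s, c m * ff a m z := by
    rw [← Finset.sum_subset (Finset.subset_union_left (s₁ := s) (s₂ := s'))]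
    · apply Finset.sum_congr rfl
      intro m hm
      simp [hm]
    · intro m _ hm
      simp [hm]
  have e2 : ∑ m ∈ s ∪ s', (if m ∈ s' then c' m else 0) * ff a m z =
      ∑ m ∈ s', c' m * ff a m z := by
    rw [← Finset.sum_subset (Finset.subset_union_right (s₁ := s) (s₂ := s'))]
    · apply Finset.sum_congr rfl
      intro m hm
      simp [hm]
    · intro m _ hm
      simp [hm]
  simp only [add_mul, Finset.sum_add_distrib]
  rw [e1, e2, hs z hz, hs' z hz]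

lemma inSpan_smul (a : ℕ → ℂ) {φ : ℂ → ℂ} (c : ℂ) (h : InSpan a φ) :
    InSpan a (fun z => c * φ z) := by
  obtain ⟨s, d, hs⟩ := h
  refine ⟨s, fun m => c * d m, ?_⟩
  intro z hz
  show c * φ z = _
  rw [hs z hz, Finset.mul_sum]
  simp only [mul_assoc]

lemma inSpan_congr (a : ℕ → ℂ) {φ ψ : ℂ → ℂ} (h : InSpan a φ)
    (he : ∀ z : ℂ, ‖z‖ = 1 → ψ z = φ z) : InSpan a ψ := by
  obtain ⟨s, c, hs⟩ := h
  exact ⟨s, c, fun z hz => by rw [he z hz, hs z hz]⟩

lemma inSpan_sum (a : ℕ → ℂ) {ι : Type*} (s : Finset ι) (φ : ι → ℂ → ℂ)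
    (h : ∀ i ∈ s, InSpan a (φ i)) : InSpan a (fun z => ∑ i ∈ s, φ i z) := by
  classical
  induction s using Finset.induction_on with
  | empty => exact ⟨∅, fun _ => 0, fun z _ => by simp⟩
  | insert i s hi ih =>
    have h1 := inSpan_add a (h i (Finset.mem_insert_self i s))
      (ih (fun j hj => h j (Finset.mem_insert_of_mem hj)))
    refine inSpan_congr a h1 ?_
    intro z _
    rw [Finset.sum_insert hi]

lemma inSpan_mul (a : ℕ → ℂ) (ha : ∀ k, ‖a k‖ < 1) {φ : ℂ → ℂ} (h : InSpan a φ) :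
    InSpan a (fun z => z * φ z) := by
  obtain ⟨s, c, hs⟩ := h
  have h1 : ∀ m ∈ s, InSpan a (fun z => c m * (z * ff a m z)) := by
    intro m _
    apply inSpan_smul
    obtain ⟨d, -, hd⟩ := band_mul a ha m
    exact ⟨_, d, hd⟩
  refine inSpan_congr a (inSpan_sum a s _ h1) ?_
  intro z hz
  rw [hs z hz, Finset.mul_sum]
  apply Finset.sum_congr rfl
  intro m _
  ring

lemma inSpan_zpow (a : ℕ → ℂ) (ha : ∀ k, ‖a k‖ < 1) (n : ℤ) : InSpan a (fun z => z ^ n) := by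
  rcases lt_or_ge n 0 with h | h
  · refine inSpan_congr a (inSpan_ff a n) ?_
    intro z _
    rw [ff_neg a h]
  · obtain ⟨N, rfl⟩ := Int.eq_ofNat_of_zero_le h
    clear h
    induction N with
    | zero =>
      refine inSpan_congr a (inSpan_ff a 0) ?_
      intro z _
      simp [ff_zero]
    | succ N ih =>
      refine inSpan_congr a (inSpan_mul a ha ih) ?_
      intro z hz
      rw [Nat.cast_succ, zpow_add₀ (ne_zero_of_norm hz), zpow_one, mul_comm]

lemma V_eq_sum (a : ℕ → ℂ) (ha : ∀ k, ‖a k‖ < 1) (φ : ℂ → ℂ)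
    (hφ : ContinuousOn φ (Metric.sphere 0 1)) (s : Finset ℤ) (c : ℤ → ℂ)
    (h : ∀ z : ℂ, ‖z‖ = 1 → φ z = ∑ m ∈ s, c m * ff a m z) :
    V φ hφ = ∑ m ∈ s, c m • FF a ha m := by
  apply Subtype.ext
  rw [Submodule.coe_sum]
  apply Lp.ext
  have h1 : ∀ᵐ E ∂rho, ∀ m ∈ s, ((FF a ha m : Lp Fibre 2 rho) : ℝ → Fibre) E = vec (ff a m) E := by
    rw [Filter.eventually_all_finset]
    intro m _
    exact V_coe _ _
  have h2 : ∀ᵐ E ∂rho, ∀ m ∈ s,
      (((c m • FF a ha m : fibreL2 rho mult) : Lp Fibre 2 rho) : ℝ → Fibre) E =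
      c m • ((FF a ha m : Lp Fibre 2 rho) : ℝ → Fibre) E := by
    rw [Filter.eventually_all_finset]
    intro m _
    exact Lp.coeFn_smul (c m) (FF a ha m : Lp Fibre 2 rho)
  have h3 := Lp.coeFn_finsetSum s (fun m => ((c m • FF a ha m : fibreL2 rho mult) : Lp Fibre 2 rho))
  filter_upwards [V_coe φ hφ, h1, h2, h3] with E e0 e1 e2 e3
  rw [e0, e3, Finset.sum_apply]
  rw [Finset.sum_congr rfl (fun m hm => (e2 m hm).trans (by rw [e1 m hm]))]
  apply lp.ext
  funext α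
  rw [lp.coeFn_sum, Finset.sum_apply]
  simp only [lp.coeFn_smul, Pi.smul_apply, smul_eq_mul]
  rcases Nat.lt_or_ge α 2 with hα | hα
  · interval_cases α
    · simp only [vec_apply_zero]
      exact h _ (norm_zpt _ _)
    · simp only [vec_apply_one]
      exact h _ (norm_zpt _ _)
  · simp [vec_apply_ge _ _ α hα]

end Pool.Agent.Lib.MP_33280d_mp
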