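import Mathlib

set_option autoImplicit false

open Complex MeasureTheory Real Filter ComplexConjugate

namespace Pool.Agent.Lib.MP_33280d_mp

/-- The weight `(1 - |a|^2)^{1/2}`. -/
noncomputable def wt (a : ℂ) : ℝ := Real.sqrt (1 - ‖a‖ ^ 2)

/-- One section: `z (z - a) / (1 - conj a z)`. -/
noncomputable def blk (a z : ℂ) : ℂ := z * (z - a) / (1 - conj a * z)

/-- Product of the first `j` sections. -/
noncomputable def BB (a : ℕ → ℂ) (j : ℕ) (z : ℂ) : ℂ := ∏ k ∈ Finset.range j, blk (a k) z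

/-- Side function of a section. -/
noncomputable def sd (a z : ℂ) : ℂ := z * (wt a : ℂ) / (1 - conj a * z)

/-- The functions with nonnegative index. -/
noncomputable def gg (a : ℕ → ℂ) (n : ℕ) (z : ℂ) : ℂ :=
  BB a (n / 2) z * (if n % 2 = 0 then 1 else sd (a (n / 2)) z)

/-- The full two-sided system. -/
noncomputable def ff (a : ℕ → ℂ) (m : ℤ) (z : ℂ) : ℂ :=
  if 0 ≤ m then gg a m.toNat z else z ^ m

lemma gg_even (a : ℕ → ℂ) (p : ℕ) (z : ℂ) : gg a (2 * p) z = BB a p z := by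
  simp [gg]

lemma gg_odd (a : ℕ → ℂ) (p : ℕ) (z : ℂ) : gg a (2 * p + 1) z = BB a p z * sd (a p) z := by
  have h1 : (2 * p + 1) / 2 = p := by omega
  have h2 : (2 * p + 1) % 2 = 1 := by omega
  simp [gg, h1]

lemma BB_succ (a : ℕ → ℂ) (p : ℕ) (z : ℂ) : BB a (p + 1) z = BB a p z * blk (a p) z := by
  simp [BB, Finset.prod_range_succ]

lemma BB_zero (a : ℕ → ℂ) (z : ℂ) : BB a 0 z = 1 := by simp [BB]

lemma wt_sq {a : ℂ} (ha : ‖a‖ < 1) : ((wt a : ℝ) : ℂ) ^ 2 = 1 - conj a * a := by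
  have h : 0 ≤ 1 - ‖a‖ ^ 2 := by nlinarith [norm_nonneg a]
  have h2 : wt a ^ 2 = 1 - ‖a‖ ^ 2 := Real.sq_sqrt h
  rw [← Complex.ofReal_pow, h2]
  push_cast
  rw [Complex.conj_mul']

lemma wt_nonneg (a : ℂ) : 0 ≤ wt a := Real.sqrt_nonneg _

lemma den_ne {a z : ℂ} (ha : ‖a‖ < 1) (hz : ‖z‖ ≤ 1) : 1 - conj a * z ≠ 0 := by
  intro h
  have h1 : conj a * z = 1 := by linear_combination -h
  have h2 : ‖conj a * z‖ = 1 := by rw [h1]; simp
  rw [norm_mul, Complex.norm_conj] at h2
  nlinarith [norm_nonneg a, norm_nonneg z]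

lemma sub_ne {a z : ℂ} (ha : ‖a‖ < 1) (hz : ‖z‖ = 1) : z - a ≠ 0 := by
  intro h
  have h1 : z = a := by linear_combination h
  rw [h1] at hz
  linarith

/-- `conj z = z⁻¹` on the unit circle. -/
lemma conj_eq_inv {z : ℂ} (hz : ‖z‖ = 1) : conj z = z⁻¹ := by
  rw [Complex.inv_def, Complex.normSq_eq_norm_sq, hz]; simp

lemma ne_zero_of_norm {z : ℂ} (hz : ‖z‖ = 1) : z ≠ 0 := by
  intro h; rw [h] at hz; simp at hz

/-! ### Band relations -/

/-- `z f_{2p} = t f_{2p+1} - conj a f_{2p+2}` -/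
lemma mul_even (a : ℕ → ℂ) (ha : ∀ k, ‖a k‖ < 1) (p : ℕ) {z : ℂ} (hz : ‖z‖ = 1) :
    z * gg a (2 * p) z = (wt (a p) : ℂ) * gg a (2 * p + 1) z
      - conj (a p) * gg a (2 * p + 2) z := by
  have hd := den_ne (ha p) hz.le
  have h2 : 2 * p + 2 = 2 * (p + 1) := by ring
  rw [h2, gg_even, gg_odd, gg_even, BB_succ, sd, blk]
  have hw := wt_sq (ha p)
  generalize conj (a p) = b at *
  generalize (wt (a p) : ℂ) = t at *
  generalize a p = c at *
  generalize BB a p z = B at *
  rw [mul_div_assoc', mul_div_assoc', mul_div_assoc', mul_div_assoc', div_sub_div_same,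
    eq_div_iff hd]
  linear_combination (-z * B) * hw

/-- `z f_{2p+1} = a f_{2p+1} + t f_{2p+2}` -/
lemma mul_odd (a : ℕ → ℂ) (ha : ∀ k, ‖a k‖ < 1) (p : ℕ) {z : ℂ} (hz : ‖z‖ = 1) :
    z * gg a (2 * p + 1) z = a p * gg a (2 * p + 1) z
      + (wt (a p) : ℂ) * gg a (2 * p + 2) z := by
  have hd := den_ne (ha p) hz.le
  have h2 : 2 * p + 2 = 2 * (p + 1) := by ring
  rw [h2, gg_odd, gg_even, BB_succ, sd, blk]
  generalize conj (a p) = b at *
  generalize (wt (a p) : ℂ) = t at *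
  generalize a p = c at *
  generalize BB a p z = B at *
  field_simp
  ring

/-- `z⁻¹ f_{2p+1} = t f_{2p} + conj a f_{2p+1}` -/
lemma inv_odd (a : ℕ → ℂ) (ha : ∀ k, ‖a k‖ < 1) (p : ℕ) {z : ℂ} (hz : ‖z‖ = 1) :
    z⁻¹ * gg a (2 * p + 1) z = (wt (a p) : ℂ) * gg a (2 * p) z
      + conj (a p) * gg a (2 * p + 1) z := by
  have hd := den_ne (ha p) hz.le
  have hz0 := ne_zero_of_norm hz
  rw [gg_odd, gg_even, sd]
  generalize conj (a p) = b at *
  generalize (wt (a p) : ℂ) = t at *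
  generalize BB a p z = B at *
  rw [mul_div_assoc', mul_div_assoc', mul_div_assoc', div_eq_iff hd, add_mul,
    div_mul_cancel₀ _ hd]
  field_simp
  ring

/-- `z⁻¹ f_{2p+2} = - a f_{2p} + t f_{2p+1}` -/
lemma inv_even (a : ℕ → ℂ) (ha : ∀ k, ‖a k‖ < 1) (p : ℕ) {z : ℂ} (hz : ‖z‖ = 1) :
    z⁻¹ * gg a (2 * p + 2) z = - a p * gg a (2 * p) z
      + (wt (a p) : ℂ) * gg a (2 * p + 1) z := by
  have hd := den_ne (ha p) hz.le
  have hz0 := ne_zero_of_norm hz
  have h2 : 2 * p + 2 = 2 * (p + 1) := by ring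
  rw [h2, gg_odd, gg_even, gg_even, BB_succ, sd, blk]
  have hw := wt_sq (ha p)
  generalize conj (a p) = b at *
  generalize (wt (a p) : ℂ) = t at *
  generalize a p = c at *
  generalize BB a p z = B at *
  rw [mul_div_assoc', mul_div_assoc', mul_div_assoc', mul_div_assoc', div_eq_iff hd, add_mul,
    div_mul_cancel₀ _ hd]
  have : z⁻¹ * (B * (z * (z - c))) = B * (z - c) := by field_simp
  rw [this]
  linear_combination (-z * B) * hw

/-- A finite band expansion of `w * f_j`. -/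
def Band (a : ℕ → ℂ) (w : ℂ → ℂ) (j : ℤ) (c : ℤ → ℂ) : Prop :=
  (∀ i, i ∉ Finset.Icc (j - 2) (j + 2) → c i = 0) ∧
    ∀ z : ℂ, ‖z‖ = 1 → w z * ff a j z = ∑ i ∈ Finset.Icc (j - 2) (j + 2), c i * ff a i z

lemma ff_nonneg (a : ℕ → ℂ) (n : ℕ) (z : ℂ) : ff a (n : ℤ) z = gg a n z := by
  simp [ff]

lemma ff_neg (a : ℕ → ℂ) {m : ℤ} (hm : m < 0) (z : ℂ) : ff a m z = z ^ m := by
  simp [ff, not_le.mpr hm]

lemma ff_zero (a : ℕ → ℂ) (z : ℂ) : ff a 0 z = 1 := by
  have := ff_nonneg a 0 z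
  simp only [Nat.cast_zero] at this
  rw [this]
  have := gg_even a 0 z
  simp only [mul_zero] at this
  rw [this, BB_zero]

/-- Two-term expansions give band expansions. -/
lemma band_of_two (a : ℕ → ℂ) (w : ℂ → ℂ) (j i₁ i₂ : ℤ) (h₁ : i₁ ∈ Finset.Icc (j - 2) (j + 2))
    (h₂ : i₂ ∈ Finset.Icc (j - 2) (j + 2)) (c₁ c₂ : ℂ)
    (h : ∀ z : ℂ, ‖z‖ = 1 → w z * ff a j z = c₁ * ff a i₁ z + c₂ * ff a i₂ z) :
    ∃ c, Band a w j c := by
  classical
  refine ⟨fun i => (if i = i₁ then c₁ else 0) + (if i = i₂ then c₂ else 0), ?_, ?_⟩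
  · intro i hi
    have e1 : i ≠ i₁ := fun e => hi (e ▸ h₁)
    have e2 : i ≠ i₂ := fun e => hi (e ▸ h₂)
    simp [e1, e2]
  · intro z hz
    rw [h z hz]
    simp only [add_mul, ite_mul, zero_mul, Finset.sum_add_distrib, Finset.sum_ite_eq', h₁, h₂,
      if_true]

lemma band_mul (a : ℕ → ℂ) (ha : ∀ k, ‖a k‖ < 1) (j : ℤ) : ∃ c, Band a (fun z => z) j c := by
  rcases lt_or_ge j 0 with hj | hj
  · refine band_of_two a _ j (j + 1) (j + 1) (by simp; omega) (by simp; omega) 1 0 ?_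
    intro z hz
    rw [ff_neg a hj]
    have hz0 := ne_zero_of_norm hz
    rcases lt_or_ge (j + 1) 0 with h | h
    · rw [ff_neg a h, zpow_add₀ hz0]
      simp; ring
    · have : j = -1 := by omega
      subst this
      norm_num [ff_zero]
      field_simp
  · obtain ⟨n, rfl⟩ := Int.eq_ofNat_of_zero_le hj
    rcases Nat.even_or_odd' n with ⟨p, rfl | rfl⟩
    · refine band_of_two a _ _ ((2 * p + 1 : ℕ) : ℤ) ((2 * p + 2 : ℕ) : ℤ)
        (by simp; omega) (by simp; omega) (wt (a p)) (-conj (a p)) ?_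
      intro z hz
      rw [ff_nonneg, ff_nonneg, ff_nonneg, mul_even a ha p hz]
      ring
    · refine band_of_two a _ _ ((2 * p + 1 : ℕ) : ℤ) ((2 * p + 2 : ℕ) : ℤ)
        (by simp) (by simp; omega) (a p) (wt (a p)) ?_
      intro z hz
      rw [ff_nonneg, ff_nonneg, mul_odd a ha p hz]

lemma band_inv (a : ℕ → ℂ) (ha : ∀ k, ‖a k‖ < 1) (j : ℤ) : ∃ c, Band a (fun z => z⁻¹) j c := by
  rcases lt_or_ge j 0 with hj | hj
  · refine band_of_two a _ j (j - 1) (j - 1) (by simp; omega) (by simp; omega) 1 0 ?_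
    intro z hz
    have hz0 := ne_zero_of_norm hz
    rw [ff_neg a hj, ff_neg a (by omega), zpow_sub₀ hz0]
    simp; ring
  · obtain ⟨n, rfl⟩ := Int.eq_ofNat_of_zero_le hj
    rcases Nat.even_or_odd' n with ⟨p, rfl | rfl⟩
    · rcases Nat.eq_zero_or_pos p with rfl | hp
      · refine band_of_two a _ _ (-1) (-1) (by simp) (by simp) 1 0 ?_
        intro z hz
        simp [ff_zero, ff_neg]
      · obtain ⟨q, rfl⟩ : ∃ q, p = q + 1 := ⟨p - 1, by omega⟩
        refine band_of_two a _ _ ((2 * q : ℕ) : ℤ) ((2 * q + 1 : ℕ) : ℤ)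
          (by simp; omega) (by simp; omega) (-(a q)) (wt (a q)) ?_
        intro z hz
        have h2 : 2 * (q + 1) = 2 * q + 2 := by ring
        rw [ff_nonneg, ff_nonneg, ff_nonneg, h2, inv_even a ha q hz]
    · refine band_of_two a _ _ ((2 * p : ℕ) : ℤ) ((2 * p + 1 : ℕ) : ℤ)
        (by simp; omega) (by simp) (wt (a p)) (conj (a p)) ?_
      intro z hz
      rw [ff_nonneg, ff_nonneg, inv_odd a ha p hz]

/-- The band expansion of `(z + z⁻¹) f_j`. -/
lemma band_sum (a : ℕ → ℂ) (ha : ∀ k, ‖a k‖ < 1) (j : ℤ) :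
    ∃ c, Band a (fun z => z + z⁻¹) j c := by
  obtain ⟨c₁, h₁, h₁'⟩ := band_mul a ha j
  obtain ⟨c₂, h₂, h₂'⟩ := band_inv a ha j
  refine ⟨fun i => c₁ i + c₂ i, ?_, ?_⟩
  · intro i hi
    simp [h₁ i hi, h₂ i hi]
  · intro z hz
    simp only [add_mul, Finset.sum_add_distrib]
    rw [← h₁' z hz, ← h₂' z hz]

/-! ### Analyticity and averages -/

open Metric Set

lemma blk_diff {a : ℂ} (ha : ‖a‖ < 1) : DifferentiableOn ℂ (blk a) (closedBall 0 1) := by
  intro z hz
  have hz' : ‖z‖ ≤ 1 := by simpa using hz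
  have hd := den_ne ha hz'
  unfold blk
  refine DifferentiableWithinAt.fun_div ?_ ?_ hd
  · fun_prop
  · fun_prop

lemma sd_diff {a : ℂ} (ha : ‖a‖ < 1) : DifferentiableOn ℂ (sd a) (closedBall 0 1) := by
  intro z hz
  have hz' : ‖z‖ ≤ 1 := by simpa using hz
  have hd := den_ne ha hz'
  unfold sd
  refine DifferentiableWithinAt.fun_div ?_ ?_ hd
  · fun_prop
  · fun_prop

/-- `gg a n` divided by `BB a p`, for `2 p ≤ n`. -/
lemma gg_factor (a : ℕ → ℂ) (ha : ∀ k, ‖a k‖ < 1) (p n : ℕ) (hn : 2 * p ≤ n) :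
    ∃ h : ℂ → ℂ, DifferentiableOn ℂ h (closedBall 0 1) ∧ (∀ z, gg a n z = BB a p z * h z) ∧
      h 0 = if n = 2 * p then 1 else 0 := by
  have hp : p ≤ n / 2 := by omega
  refine ⟨fun z => (∏ k ∈ Finset.Ico p (n / 2), blk (a k) z) *
    (if n % 2 = 0 then 1 else sd (a (n / 2)) z), ?_, ?_, ?_⟩
  · apply DifferentiableOn.mul
    · exact DifferentiableOn.fun_finsetProd (fun k _ => blk_diff (ha k))
    · split_ifs
      · exact differentiableOn_const _
      · exact sd_diff (ha _)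
  · intro z
    rw [gg, BB, BB, ← Finset.prod_range_mul_prod_Ico _ hp]
    ring
  · split_ifs with h1 h2 h2
    · subst h2
      simp
    · have : p < n / 2 := by omega
      apply mul_eq_zero_of_left
      apply Finset.prod_eq_zero (i := p) (by simp [this])
      simp [blk]
    · omega
    · simp [sd]

lemma norm_blk {a z : ℂ} (ha : ‖a‖ < 1) (hz : ‖z‖ = 1) : ‖blk a z‖ = 1 := by
  have hd := den_ne ha hz.le
  have h1 : 1 - conj a * z = conj (z - a) * z := by
    rw [map_sub, conj_eq_inv hz]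
    field_simp [ne_zero_of_norm hz]
  rw [blk, h1, norm_div, norm_mul, norm_mul, Complex.norm_conj, hz]
  have : ‖z - a‖ ≠ 0 := by simpa using sub_ne ha hz
  field_simp

lemma norm_BB (a : ℕ → ℂ) (ha : ∀ k, ‖a k‖ < 1) (p : ℕ) {z : ℂ} (hz : ‖z‖ = 1) :
    ‖BB a p z‖ = 1 := by
  rw [BB, norm_prod]
  exact Finset.prod_eq_one (fun k _ => norm_blk (ha k) hz)

lemma conj_mul_BB (a : ℕ → ℂ) (ha : ∀ k, ‖a k‖ < 1) (p : ℕ) {z : ℂ} (hz : ‖z‖ = 1) :
    conj (BB a p z) * BB a p z = 1 := by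
  rw [Complex.conj_mul', norm_BB a ha p hz]; simp

lemma conj_sd {a z : ℂ} (_ha : ‖a‖ < 1) (hz : ‖z‖ = 1) :
    conj (sd a z) = (wt a : ℂ) / (z - a) := by
  have hz0 := ne_zero_of_norm hz
  have h1 : (1 : ℂ) - a * z⁻¹ = (z - a) * z⁻¹ := by field_simp
  rw [sd]
  simp only [map_div₀, map_mul, map_sub, map_one, Complex.conj_conj, Complex.conj_ofReal,
    conj_eq_inv hz]
  rw [h1]
  field_simp

lemma avg_of_diff {h : ℂ → ℂ} (hh : DifferentiableOn ℂ h (closedBall 0 1)) :
    circleAverage h 0 1 = h 0 := by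
  have : DiffContOnCl ℂ h (ball 0 |(1 : ℝ)|) := by
    apply DifferentiableOn.diffContOnCl
    rw [abs_one, closure_ball _ one_ne_zero]
    exact hh
  exact this.circleAverage

lemma avg_of_diff_w {h : ℂ → ℂ} (hh : DifferentiableOn ℂ h (closedBall 0 1)) {w : ℂ}
    (hw : ‖w‖ < 1) :
    circleAverage (fun z => (z / (z - w)) * h z) 0 1 = h w := by
  have h1 : DiffContOnCl ℂ h (ball 0 |(1 : ℝ)|) := by
    apply DifferentiableOn.diffContOnCl
    rw [abs_one, closure_ball _ one_ne_zero]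
    exact hh
  have := h1.circleAverage_smul_div (w := w) (by simpa using hw)
  simpa using this

lemma avg_congr {f g : ℂ → ℂ} (h : ∀ z : ℂ, ‖z‖ = 1 → f z = g z) :
    circleAverage f 0 1 = circleAverage g 0 1 := by
  apply circleAverage_congr_sphere
  intro z hz
  apply h
  simpa using hz

/-- Orthonormality for nonnegative indices. -/
lemma avg_gg (a : ℕ → ℂ) (ha : ∀ k, ‖a k‖ < 1) (m n : ℕ) (hmn : m ≤ n) :
    circleAverage (fun z => conj (gg a m z) * gg a n z) 0 1 = if m = n then 1 else 0 := by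
  rcases Nat.even_or_odd' m with ⟨p, rfl | rfl⟩
  · obtain ⟨h, h1, h2, h3⟩ := gg_factor a ha p n hmn
    rw [avg_congr (g := h), avg_of_diff h1, h3]
    · simp only [eq_comm]
    · intro z hz
      rw [gg_even, h2, ← mul_assoc, conj_mul_BB a ha p hz, one_mul]
  · rcases Nat.eq_or_lt_of_le hmn with h | h
    · subst h
      have hh : DifferentiableOn ℂ (fun z => (wt (a p) : ℂ) ^ 2 / (1 - conj (a p) * z))
          (closedBall 0 1) := by
        intro z hz
        have hz' : ‖z‖ ≤ 1 := by simpa using hz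
        have hd := den_ne (ha p) hz'
        refine DifferentiableWithinAt.fun_div ?_ ?_ hd
        · fun_prop
        · fun_prop
      rw [if_pos rfl]
      rw [avg_congr (g := fun z => (z / (z - a p)) * ((wt (a p) : ℂ) ^ 2 / (1 - conj (a p) * z))),
        avg_of_diff_w hh (ha p), wt_sq (ha p)]
      · exact div_self (den_ne (ha p) (ha p).le)
      · intro z hz
        rw [gg_odd, map_mul, conj_sd (ha p) hz, sd]
        have hB := conj_mul_BB a ha p hz
        have hd := den_ne (ha p) hz.le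
        have hs := sub_ne (ha p) hz
        calc conj (BB a p z) * ((wt (a p) : ℂ) / (z - a p)) *
              (BB a p z * (z * (wt (a p) : ℂ) / (1 - conj (a p) * z)))
            = (conj (BB a p z) * BB a p z) *
              (z / (z - a p) * ((wt (a p) : ℂ) ^ 2 / (1 - conj (a p) * z))) := by ring
          _ = _ := by rw [hB, one_mul]
    · rw [if_neg (by omega)]
      obtain ⟨h, h1, h2, h3⟩ := gg_factor a ha (p + 1) n (by omega)
      have hh : DifferentiableOn ℂ (fun z => (wt (a p) : ℂ) * z * h z / (1 - conj (a p) * z))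
          (closedBall 0 1) := by
        intro z hz
        have hz' : ‖z‖ ≤ 1 := by simpa using hz
        have hd := den_ne (ha p) hz'
        refine DifferentiableWithinAt.fun_div ?_ ?_ hd
        · apply DifferentiableWithinAt.mul _ (h1 z hz)
          fun_prop
        · fun_prop
      rw [avg_congr (g := fun z => (wt (a p) : ℂ) * z * h z / (1 - conj (a p) * z)),
        avg_of_diff hh]
      · simp
      · intro z hz
        rw [gg_odd, map_mul, conj_sd (ha p) hz, h2, BB_succ, blk]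
        have hB := conj_mul_BB a ha p hz
        have hd := den_ne (ha p) hz.le
        have hs := sub_ne (ha p) hz
        have e : (wt (a p) : ℂ) / (z - a p) * (z * (z - a p) / (1 - conj (a p) * z)) =
            (wt (a p) : ℂ) * z / (1 - conj (a p) * z) := by
          rw [div_mul_div_comm, div_eq_div_iff (mul_ne_zero hs hd) hd]
          ring
        calc conj (BB a p z) * ((wt (a p) : ℂ) / (z - a p)) *
              (BB a p z * (z * (z - a p) / (1 - conj (a p) * z)) * h z)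
            = (conj (BB a p z) * BB a p z) *
              ((wt (a p) : ℂ) / (z - a p) * (z * (z - a p) / (1 - conj (a p) * z))) * h z := by
                ring
          _ = _ := by rw [hB, e]; ring

/-- Orthonormality, ordered indices. -/
lemma avg_ff_le (a : ℕ → ℂ) (ha : ∀ k, ‖a k‖ < 1) (m n : ℤ) (hmn : m ≤ n) :
    circleAverage (fun z => conj (ff a m z) * ff a n z) 0 1 = if m = n then 1 else 0 := by
  rcases lt_or_ge m 0 with hm | hm
  · obtain ⟨k, hk⟩ : ∃ k : ℕ, m = -((k : ℤ) + 1) := ⟨(-m - 1).toNat, by omega⟩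
    have hc : ∀ z : ℂ, ‖z‖ = 1 → conj (ff a m z) = z ^ (k + 1) := by
      intro z hz
      rw [ff_neg a hm, map_zpow₀, conj_eq_inv hz, hk, inv_zpow', neg_neg]
      exact_mod_cast rfl
    rcases lt_or_ge n 0 with hn | hn
    · obtain ⟨l, hl⟩ : ∃ l : ℕ, n = m + l := ⟨(n - m).toNat, by omega⟩
      rw [avg_congr (g := fun z => z ^ l), avg_of_diff (by fun_prop)]
      · rcases Nat.eq_zero_or_pos l with h | h
        · subst h
          simp [hl]
        · rw [zero_pow h.ne', if_neg (by omega)]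
      · intro z hz
        have hz0 := ne_zero_of_norm hz
        rw [hc z hz, ff_neg a hn, hl, zpow_add₀ hz0, ← mul_assoc, hk, zpow_natCast]
        have : z ^ (k + 1) * z ^ (-((k : ℤ) + 1)) = 1 := by
          rw [zpow_neg]
          have e : z ^ ((k : ℤ) + 1) = z ^ (k + 1) := by exact_mod_cast rfl
          rw [e]
          exact mul_inv_cancel₀ (pow_ne_zero _ hz0)
        rw [this, one_mul]
    · obtain ⟨N, rfl⟩ := Int.eq_ofNat_of_zero_le hn
      obtain ⟨h, h1, h2, -⟩ := gg_factor a ha 0 N (by omega)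
      rw [avg_congr (g := fun z => z ^ (k + 1) * h z),
        avg_of_diff (by
          apply DifferentiableOn.mul _ h1
          fun_prop)]
      · rw [if_neg (by omega)]
        simp
      · intro z hz
        rw [hc z hz, ff_nonneg, h2, BB_zero, one_mul]
  · obtain ⟨M, rfl⟩ := Int.eq_ofNat_of_zero_le hm
    obtain ⟨N, rfl⟩ := Int.eq_ofNat_of_zero_le (hm.trans hmn)
    simp only [ff_nonneg]
    rw [avg_gg a ha M N (by omega)]
    simp

lemma avg_conj (f : ℂ → ℂ) : circleAverage (fun z => conj (f z)) 0 1 =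
    conj (circleAverage f 0 1) := by
  simp only [circleAverage]
  rw [Complex.real_smul, Complex.real_smul, map_mul, Complex.conj_ofReal,
    intervalIntegral.intervalIntegral_eq_integral_uIoc,
    intervalIntegral.intervalIntegral_eq_integral_uIoc]
  congr 1
  rw [integral_conj]
  simp only [Complex.real_smul, map_mul, Complex.conj_ofReal]

/-- Orthonormality of the full system with respect to the normalised circle average. -/
theorem avg_ff (a : ℕ → ℂ) (ha : ∀ k, ‖a k‖ < 1) (m n : ℤ) :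
    circleAverage (fun z => conj (ff a m z) * ff a n z) 0 1 = if m = n then 1 else 0 := by
  rcases le_total m n with h | h
  · exact avg_ff_le a ha m n h
  · have h1 := avg_ff_le a ha n m h
    have h2 := avg_conj (fun z => conj (ff a n z) * ff a m z)
    rw [h1] at h2
    have h3 : (fun z => conj (ff a m z) * ff a n z) =
        (fun z => conj (conj (ff a n z) * ff a m z)) := by
      funext z
      simp [mul_comm]
    rw [h3, h2]
    simp only [eq_comm (a := m)]
    split_ifs <;> simp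

end Pool.Agent.Lib.MP_33280d_mp
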