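import Pool.Agent.Lib.MP_33280d_mp.Oper

set_option autoImplicit false

open Complex MeasureTheory Real Filter ComplexConjugate Set Topology
open scoped ENNReal

namespace Pool.Agent.Lib.MP_33280d_mp

/-- resolution at index `j` -/
noncomputable def eps (j : ℕ) : ℝ := 1 / 2 ^ (Nat.log 2 j)

/-- direction at index `j` -/
noncomputable def dir (j : ℕ) : ℂ :=
  Complex.exp ((2 * π * ((j - 2 ^ (Nat.log 2 j) : ℕ) : ℝ) / 2 ^ (Nat.log 2 j) : ℝ) * I)

/-- the parameters -/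
noncomputable def aa (j : ℕ) : ℂ := ((1 - eps j : ℝ) : ℂ) * dir j

lemma eps_pos (j : ℕ) : 0 < eps j := by unfold eps; positivity

lemma eps_le_one (j : ℕ) : eps j ≤ 1 := by
  unfold eps
  rw [div_le_one (by positivity)]
  exact one_le_pow₀ (by norm_num)

lemma norm_dir (j : ℕ) : ‖dir j‖ = 1 := Complex.norm_exp_ofReal_mul_I _

lemma norm_aa (j : ℕ) : ‖aa j‖ = 1 - eps j := by
  rw [aa, norm_mul, norm_dir, mul_one, Complex.norm_real, Real.norm_eq_abs,
    abs_of_nonneg (by linarith [eps_le_one j])]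

lemma norm_aa_lt (j : ℕ) : ‖aa j‖ < 1 := by
  rw [norm_aa]; linarith [eps_pos j]

lemma wt_aa_sq (j : ℕ) : wt (aa j) ^ 2 = 2 * eps j - eps j ^ 2 := by
  have h := eps_pos j
  have h1 := eps_le_one j
  rw [wt, Real.sq_sqrt, norm_aa]
  · ring
  · rw [norm_aa]; nlinarith

lemma den_norm {a z : ℂ} (hz : ‖z‖ = 1) : ‖1 - conj a * z‖ = ‖z - a‖ := by
  have h1 : 1 - conj a * z = conj (z - a) * z := by
    rw [map_sub, conj_eq_inv hz]
    field_simp [ne_zero_of_norm hz]
  rw [h1, norm_mul, Complex.norm_conj, hz, mul_one]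

lemma sq_norm_sd (j : ℕ) {z : ℂ} (hz : ‖z‖ = 1) :
    ‖sd (aa j) z‖ ^ 2 = (2 * eps j - eps j ^ 2) / ‖z - aa j‖ ^ 2 := by
  rw [sd, norm_div, norm_mul, hz, one_mul, div_pow, den_norm hz, Complex.norm_real,
    Real.norm_eq_abs, sq_abs, wt_aa_sq]

lemma two_pow_log_le (j : ℕ) : (2 : ℝ) ^ (Nat.log 2 j) ≤ (j : ℝ) + 1 := by
  rcases Nat.eq_zero_or_pos j with rfl | h
  · simp
  · have : 2 ^ (Nat.log 2 j) ≤ j := Nat.pow_log_le_self 2 h.ne'
    have h2 : (2 : ℝ) ^ (Nat.log 2 j) ≤ (j : ℝ) := by exact_mod_cast this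
    linarith

lemma sq_norm_sd_le (j : ℕ) {z : ℂ} (hz : ‖z‖ = 1) :
    ‖sd (aa j) z‖ ^ 2 ≤ 2 * (j : ℝ) + 2 := by
  rw [sq_norm_sd j hz]
  have h0 := eps_pos j
  have h1 : eps j ≤ ‖z - aa j‖ := by
    have := norm_sub_norm_le z (aa j)
    rw [hz, norm_aa] at this
    linarith
  have h2 : eps j ^ 2 ≤ ‖z - aa j‖ ^ 2 := by
    apply pow_le_pow_left₀ h0.le h1
  have h3 : 0 < ‖z - aa j‖ ^ 2 := lt_of_lt_of_le (by positivity) h2
  rw [div_le_iff₀ h3]
  have h4 : eps j * 2 ^ (Nat.log 2 j) = 1 := by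
    unfold eps; field_simp
  have h5 := two_pow_log_le j
  have h6 : 1 ≤ eps j * ((j : ℝ) + 1) :=
    h4.symm.le.trans (mul_le_mul_of_nonneg_left h5 h0.le)
  have h7 : 2 * eps j ≤ 2 * ((j : ℝ) + 1) * eps j ^ 2 := by
    nlinarith
  have h8 : 2 * ((j : ℝ) + 1) * eps j ^ 2 ≤ (2 * (j : ℝ) + 2) * ‖z - aa j‖ ^ 2 := by
    have : (0 : ℝ) ≤ 2 * ((j : ℝ) + 1) := by positivity
    nlinarith
  nlinarith [sq_nonneg (eps j)]

/-- upper bound -/
lemma norm_ff_le {z : ℂ} (hz : ‖z‖ = 1) (m : ℤ) : ‖ff aa m z‖ ≤ Real.sqrt (1 + |(m : ℝ)|) := by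
  apply Real.le_sqrt_of_sq_le
  rcases lt_or_ge m 0 with hm | hm
  · rw [ff_neg aa hm, norm_zpow, hz, one_zpow, one_pow]
    linarith [abs_nonneg (m : ℝ)]
  · obtain ⟨n, rfl⟩ := Int.eq_ofNat_of_zero_le hm
    rw [ff_nonneg]
    have habs : |(((n : ℕ) : ℤ) : ℝ)| = (n : ℝ) := by
      rw [Int.cast_natCast, abs_of_nonneg (Nat.cast_nonneg n)]
    rw [habs]
    rcases Nat.even_or_odd' n with ⟨p, rfl | rfl⟩
    · rw [gg_even, norm_BB aa norm_aa_lt p hz]
      have : (0 : ℝ) ≤ ((2 * p : ℕ) : ℝ) := Nat.cast_nonneg _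
      linarith
    · rw [gg_odd, norm_mul, norm_BB aa norm_aa_lt p hz, one_mul]
      have := sq_norm_sd_le p hz
      push_cast
      linarith

/-- dyadic approximation on the circle -/
lemma exists_dir {z : ℂ} (hz : ‖z‖ = 1) (k : ℕ) :
    ∃ j : ℕ, 2 ^ k ≤ j ∧ j < 2 ^ (k + 1) ∧ ‖z - dir j‖ ≤ 2 * π / 2 ^ k := by
  set t : ℝ := Int.fract (Complex.arg z / (2 * π)) with ht
  have ht0 : 0 ≤ t := Int.fract_nonneg _
  have ht1 : t < 1 := Int.fract_lt_one _
  have hzt : z = Complex.exp ((2 * π * t : ℝ) * I) := by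
    have h1 : z = Complex.exp (Complex.arg z * I) := by
      have := Complex.norm_mul_exp_arg_mul_I z
      rw [hz] at this
      simpa using this.symm
    have h2 : (2 * π * t : ℝ) = Complex.arg z - ⌊Complex.arg z / (2 * π)⌋ * (2 * π) := by
      rw [ht, Int.fract]
      field_simp
    rw [h2]
    push_cast
    rw [sub_mul, Complex.exp_sub]
    have h3 : Complex.exp ((⌊Complex.arg z / (2 * π)⌋ : ℂ) * (2 * π) * I) = 1 := by
      rw [mul_assoc]
      exact Complex.exp_int_mul_two_pi_mul_I _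
    rw [h3, div_one]
    exact h1
  set r : ℕ := ⌊(2 : ℝ) ^ k * t⌋₊ with hr
  have hr1 : (r : ℝ) ≤ 2 ^ k * t := Nat.floor_le (by positivity)
  have hr2 : 2 ^ k * t < r + 1 := Nat.lt_floor_add_one _
  have hr3 : r < 2 ^ k := by
    have : (r : ℝ) < 2 ^ k := by
      calc (r : ℝ) ≤ 2 ^ k * t := hr1
        _ < 2 ^ k * 1 := by
          apply mul_lt_mul_of_pos_left ht1
          positivity
        _ = 2 ^ k := mul_one _
    exact_mod_cast this
  have hlog : Nat.log 2 (2 ^ k + r) = k := by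
    rw [Nat.log_eq_iff (Or.inr ⟨by norm_num, by positivity⟩)]
    constructor
    · omega
    · rw [pow_succ]; omega
  refine ⟨2 ^ k + r, by omega, by rw [pow_succ]; omega, ?_⟩
  rw [dir, hlog, Nat.add_sub_cancel_left]
  have e1 : z - Complex.exp ((2 * π * (r : ℝ) / 2 ^ k : ℝ) * I) =
      Complex.exp ((2 * π * (r : ℝ) / 2 ^ k : ℝ) * I) *
        (Complex.exp (I * ((2 * π * t - 2 * π * (r : ℝ) / 2 ^ k : ℝ) : ℂ)) - 1) := by
    rw [mul_sub, ← Complex.exp_add, mul_one]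
    conv_lhs => rw [hzt]
    congr 2
    push_cast
    ring
  rw [e1, norm_mul, Complex.norm_exp_ofReal_mul_I, one_mul]
  refine (Real.norm_exp_I_mul_ofReal_sub_one_le).trans ?_
  have e2 : 2 * π * t - 2 * π * (r : ℝ) / 2 ^ k = 2 * π * (2 ^ k * t - r) / 2 ^ k := by
    field_simp
  rw [e2, Real.norm_eq_abs, abs_of_nonneg]
  · apply div_le_div_of_nonneg_right _ (by positivity)
    have : 2 ^ k * t - r ≤ 1 := by linarith
    have hp : 0 ≤ 2 * π := by positivity
    calc 2 * π * (2 ^ k * t - r) ≤ 2 * π * 1 := mul_le_mul_of_nonneg_left this hp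
      _ = 2 * π := mul_one _
  · have : 0 ≤ 2 ^ k * t - r := by linarith
    positivity

/-- lower bound at infinitely many sites -/
lemma exists_large {z : ℂ} (hz : ‖z‖ = 1) (M : ℕ) :
    ∃ m : ℤ, (M : ℝ) ≤ |(m : ℝ)| ∧ Real.sqrt |(m : ℝ)| / 16 ≤ ‖ff aa m z‖ := by
  obtain ⟨j, h1, h2, h3⟩ := exists_dir hz M
  refine ⟨((2 * j + 1 : ℕ) : ℤ), ?_, ?_⟩
  · rw [Int.cast_natCast, abs_of_nonneg (Nat.cast_nonneg _)]
    have : M < 2 ^ M := Nat.lt_two_pow_self
    have : M ≤ 2 * j + 1 := by omega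
    exact_mod_cast this
  · have hlog : Nat.log 2 j = M := by
      rw [Nat.log_eq_iff (Or.inr ⟨by norm_num, by
        have : 0 < 2 ^ M := by positivity
        omega⟩)]
      exact ⟨h1, h2⟩
    rw [ff_nonneg, gg_odd, norm_mul, norm_BB aa norm_aa_lt j hz, one_mul, Int.cast_natCast,
      abs_of_nonneg (Nat.cast_nonneg _)]
    have heps : eps j = 1 / 2 ^ M := by rw [eps, hlog]
    have h0 := eps_pos j
    have hle := eps_le_one j
    have h4 : ‖z - aa j‖ ≤ 8 * eps j := by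
      have e : z - aa j = (z - dir j) + (eps j : ℂ) * dir j := by
        rw [aa]; push_cast; ring
      rw [e]
      refine (norm_add_le _ _).trans ?_
      rw [norm_mul, norm_dir, mul_one, Complex.norm_real, Real.norm_eq_abs, abs_of_pos h0]
      have hpi : π < 3.15 := Real.pi_lt_d2
      have : 2 * π / 2 ^ M = 2 * π * eps j := by rw [heps]; ring
      rw [this] at h3
      nlinarith
    have h5 : 0 < ‖z - aa j‖ := norm_pos_iff.mpr (sub_ne (norm_aa_lt j) hz)
    have h6 : ‖z - aa j‖ ^ 2 ≤ 64 * eps j ^ 2 := by nlinarith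
    have h7 : eps j / (64 * eps j ^ 2) ≤ ‖sd (aa j) z‖ ^ 2 := by
      rw [sq_norm_sd j hz]
      apply div_le_div₀
      · nlinarith
      · nlinarith
      · positivity
      · exact h6
    have h8 : eps j / (64 * eps j ^ 2) = 2 ^ M / 64 := by
      rw [heps]; field_simp
    rw [h8] at h7
    have h9 : ((2 * j + 1 : ℕ) : ℝ) ≤ 4 * 2 ^ M := by
      have : 2 * j + 1 ≤ 4 * 2 ^ M := by
        rw [pow_succ] at h2; omega
      exact_mod_cast this
    apply le_of_sq_le_sq _ (norm_nonneg _)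
    rw [div_pow, Real.sq_sqrt (Nat.cast_nonneg _)]
    linarith

lemma rho_ac : rho ≪ volume := by
  apply Measure.AbsolutelyContinuous.mk
  intro s hs h0
  unfold rho
  rw [Measure.smul_apply, Measure.map_apply meas_cos hs,
    Measure.restrict_apply (meas_cos hs), smul_eq_mul]
  apply mul_eq_zero_of_right
  have hsub : (fun θ : ℝ => 2 * Real.cos θ) ⁻¹' s ∩ Ioo 0 π ⊆
      (fun x : ℝ => Real.arccos (x / 2)) '' (s ∩ Ioo (-2) 2) := by
    rintro θ ⟨h1, h2⟩
    refine ⟨2 * Real.cos θ, ⟨h1, two_cos_mem h2⟩, ?_⟩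
    simp only
    rw [mul_div_cancel_left₀ _ (two_ne_zero)]
    exact Real.arccos_cos h2.1.le h2.2.le
  refine measure_mono_null hsub ?_
  apply addHaar_image_eq_zero_of_differentiableOn_of_addHaar_eq_zero
  · intro x hx
    have h1 : x / 2 ≠ -1 := by
      have := hx.2.1
      intro h
      linarith
    have h2 : x / 2 ≠ 1 := by
      have := hx.2.2
      intro h
      linarith
    have h3 : DifferentiableAt ℝ Real.arccos (x / 2) := Real.differentiableAt_arccos.mpr ⟨h1, h2⟩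
    exact (h3.comp x (by fun_prop : DifferentiableAt ℝ (fun y : ℝ => y / 2) x)).differentiableWithinAt
  · exact measure_mono_null inter_subset_left h0

lemma rho_pos : 0 < rho (Ioo (-2) 2) := by
  have h := mem_support_rho (E := 0) (by constructor <;> norm_num)
  rw [Measure.mem_support_iff_forall] at h
  exact h _ (Ioo_mem_nhds (by norm_num) (by norm_num))

end Pool.Agent.Lib.MP_33280d_mp
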