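import Pool.Agent.Lib.MP_33280d_mp.Assemble

set_option autoImplicit false

open Complex MeasureTheory Real Filter ComplexConjugate Set Topology

namespace Pool.Agent.Lib.MP_33280d_mp

lemma zpow_cont (n : ℤ) : ContinuousOn (fun z : ℂ => z ^ n) (Metric.sphere 0 1) := by
  intro z hz
  have : z ≠ 0 := ne_zero_of_norm (by simpa using hz)
  exact (continuousAt_zpow₀ z n (Or.inl this)).continuousWithinAt

/-- A vector orthogonal to all `F_m` is orthogonal to all monomials. -/
lemma orth_zpow (a : ℕ → ℂ) (ha : ∀ k, ‖a k‖ < 1) (G : fibreL2 rho mult)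
    (hG : ∀ m, inner ℂ (FF a ha m) G = 0) (n : ℤ) :
    inner ℂ (V (fun z => z ^ n) (zpow_cont n)) G = 0 := by
  obtain ⟨s, c, h⟩ := inSpan_zpow a ha n
  rw [V_eq_sum a ha _ (zpow_cont n) s c h, sum_inner]
  apply Finset.sum_eq_zero
  intro m _
  have h1 : inner ℂ (c m • FF a ha m) G = conj (c m) * inner ℂ (FF a ha m) G :=
    inner_smul_left (𝕜 := ℂ) (FF a ha m) G (c m)
  rw [h1, hG m, mul_zero]

/-- the unfolded function on `(0, 2π]` -/
noncomputable def unf (G : fibreL2 rho mult) (θ : ℝ) : ℂ := by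
  classical exact
    if θ < π then ((G : Lp Fibre 2 rho) (2 * Real.cos θ)) 0
    else ((G : Lp Fibre 2 rho) (2 * Real.cos θ)) 1

lemma memLp_comp (G : fibreL2 rho mult) (α : ℕ) :
    MemLp (fun θ : ℝ => ((G : Lp Fibre 2 rho) (2 * Real.cos θ)) α) 2
      (volume.restrict (Ioo 0 π)) := by
  have h1 : MemLp (fun E => ((G : Lp Fibre 2 rho) E) α) 2 rho :=
    (lp.evalCLM ℂ (fun _ : ℕ => ℂ) 2 α).comp_memLp (G : Lp Fibre 2 rho)
  have h2 : MemLp (fun E => ((G : Lp Fibre 2 rho) E) α) 2
      (Measure.map (fun θ : ℝ => 2 * Real.cos θ) (volume.restrict (Ioo 0 π))) := by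
    refine h1.of_measure_le_smul (c := (ENNReal.ofReal ((2 * π)⁻¹))⁻¹)
      (ENNReal.inv_ne_top.mpr const_ne) ?_
    unfold rho
    rw [smul_smul, ENNReal.inv_mul_cancel const_ne ENNReal.ofReal_ne_top, one_smul]
  exact (memLp_map_measure_iff h2.1 meas_cos.aemeasurable).mp h2

lemma mp_refl : MeasurePreserving (fun θ : ℝ => 2 * π - θ)
    (volume.restrict (Ioo π (2 * π))) (volume.restrict (Ioo 0 π)) := by
  have h := (Measure.measurePreserving_sub_left (volume : Measure ℝ) (2 * π)).restrict_preimage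
    (s := Ioo 0 π) measurableSet_Ioo
  have e : (fun θ : ℝ => 2 * π - θ) ⁻¹' (Ioo 0 π) = Ioo π (2 * π) := by
    ext θ
    simp only [mem_preimage, mem_Ioo]
    constructor <;> rintro ⟨h1, h2⟩ <;> constructor <;> linarith
  rwa [e] at h

lemma cos_refl (θ : ℝ) : Real.cos (2 * π - θ) = Real.cos θ := by
  rw [Real.cos_sub, Real.cos_two_pi, Real.sin_two_pi]
  ring

lemma memLp_comp' (G : fibreL2 rho mult) (α : ℕ) :
    MemLp (fun θ : ℝ => ((G : Lp Fibre 2 rho) (2 * Real.cos θ)) α) 2
      (volume.restrict (Ioo π (2 * π))) := by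
  have h := (memLp_comp G α).comp_measurePreserving mp_refl
  have e : (fun θ : ℝ => ((G : Lp Fibre 2 rho) (2 * Real.cos θ)) α) ∘ (fun θ : ℝ => 2 * π - θ) =
      (fun θ : ℝ => ((G : Lp Fibre 2 rho) (2 * Real.cos θ)) α) := by
    funext θ
    simp only [Function.comp, cos_refl]
  rwa [e] at h

lemma restrict_eq : (volume : Measure ℝ).restrict (Ioc 0 (2 * π)) =
    volume.restrict (Ioo 0 π ∪ Ioo π (2 * π)) := by
  apply Measure.restrict_congr_set
  have h0 : volume ((Ioc 0 (2 * π) : Set ℝ) \ (Ioo 0 π ∪ Ioo π (2 * π))) = 0 := by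
    have : (Ioc 0 (2 * π) : Set ℝ) \ (Ioo 0 π ∪ Ioo π (2 * π)) ⊆ {π, 2 * π} := by
      rintro x ⟨⟨h1, h2⟩, h3⟩
      simp only [mem_union, mem_Ioo, not_or, not_and, not_lt] at h3
      simp only [mem_insert_iff, mem_singleton_iff]
      rcases lt_trichotomy x π with h | h | h
      · exact absurd (h3.1 h1) (not_le.mpr h)
      · exact Or.inl h
      · exact Or.inr (le_antisymm h2 (h3.2 h))
    exact measure_mono_null this (Set.Finite.measure_zero (by simp) _)
  have h1 : (Ioo 0 π ∪ Ioo π (2 * π)) \ (Ioc 0 (2 * π) : Set ℝ) = ∅ := by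
    rw [Set.sdiff_eq_empty]
    rintro x (⟨h1, h2⟩ | ⟨h1, h2⟩)
    · exact ⟨h1, by linarith [pi_pos]⟩
    · exact ⟨by linarith [pi_pos], h2.le⟩
  refine (ae_eq_set).mpr ⟨h0, ?_⟩
  rw [h1]
  simp

lemma memLp_unf (G : fibreL2 rho mult) :
    MemLp (unf G) 2 (volume.restrict (Ioc 0 (2 * π))) := by
  have h1 : MemLp (unf G) 2 (volume.restrict (Ioo 0 π)) := by
    refine (memLp_comp G 0).ae_eq ?_
    filter_upwards [ae_restrict_mem measurableSet_Ioo] with θ hθ
    simp only [unf, if_pos hθ.2]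
  have h2 : MemLp (unf G) 2 (volume.restrict (Ioo π (2 * π))) := by
    refine (memLp_comp' G 1).ae_eq ?_
    filter_upwards [ae_restrict_mem measurableSet_Ioo] with θ hθ
    simp only [unf, if_neg (not_lt.mpr hθ.1.le)]
  rw [restrict_eq]
  have hm : AEStronglyMeasurable (unf G) (volume.restrict (Ioo 0 π ∪ Ioo π (2 * π))) :=
    aestronglyMeasurable_union_iff.mpr ⟨h1.1, h2.1⟩
  rw [memLp_two_iff_integrable_sq_norm hm]
  exact IntegrableOn.union ((memLp_two_iff_integrable_sq_norm h1.1).mp h1)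
    ((memLp_two_iff_integrable_sq_norm h2.1).mp h2)

lemma integral_unf (G : fibreL2 rho mult) (n : ℤ) :
    ∫ θ in (0 : ℝ)..(2 * π), Complex.exp (-(n * θ * I)) * unf G θ =
      ∫ θ in Ioo 0 π,
      (conj (Complex.exp (θ * I) ^ n) * ((G : Lp Fibre 2 rho) (2 * Real.cos θ)) 0 +
        conj (Complex.exp (-θ * I) ^ n) * ((G : Lp Fibre 2 rho) (2 * Real.cos θ)) 1) := by
  have hbd : ∀ θ : ℝ, ‖Complex.exp (-(n * θ * I))‖ ≤ 1 := by
    intro θ
    have := Complex.norm_exp_ofReal_mul_I (-(n * θ))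
    have e : ((-(n * θ) : ℝ) : ℂ) * I = -(n * θ * I) := by push_cast; ring
    rw [e] at this
    exact this.le
  have hint : ∀ (s : Set ℝ) (f : ℝ → ℂ), MemLp f 2 (volume.restrict s) →
      volume s < ⊤ → IntegrableOn (fun θ : ℝ => Complex.exp (-(n * θ * I)) * f θ) s := by
    intro s f hf hs
    have : IsFiniteMeasure (volume.restrict s) := ⟨by rwa [Measure.restrict_apply_univ]⟩
    have hf1 : Integrable f (volume.restrict s) := hf.integrable (by norm_num)
    refine hf1.bdd_mul (c := 1) ?_ ?_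
    · exact Continuous.aestronglyMeasurable (by fun_prop)
    · exact Filter.Eventually.of_forall hbd
  have hI1 : IntegrableOn (fun θ : ℝ => Complex.exp (-(n * θ * I)) *
      ((G : Lp Fibre 2 rho) (2 * Real.cos θ)) 0) (Ioo 0 π) :=
    hint _ _ (memLp_comp G 0) (by rw [Real.volume_Ioo]; exact ENNReal.ofReal_lt_top)
  have hI2 : IntegrableOn (fun θ : ℝ => Complex.exp (-(n * θ * I)) *
      ((G : Lp Fibre 2 rho) (2 * Real.cos θ)) 1) (Ioo π (2 * π)) :=
    hint _ _ (memLp_comp' G 1) (by rw [Real.volume_Ioo]; exact ENNReal.ofReal_lt_top)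
  have hU1 : IntegrableOn (fun θ : ℝ => Complex.exp (-(n * θ * I)) * unf G θ) (Ioo 0 π) := by
    refine hI1.congr_fun ?_ measurableSet_Ioo
    intro θ hθ
    simp only [unf, if_pos hθ.2]
  have hU2 : IntegrableOn (fun θ : ℝ => Complex.exp (-(n * θ * I)) * unf G θ)
      (Ioo π (2 * π)) := by
    refine hI2.congr_fun ?_ measurableSet_Ioo
    intro θ hθ
    simp only [unf, if_neg (not_lt.mpr hθ.1.le)]
  have hdisj : Disjoint (Ioo 0 π) (Ioo π (2 * π)) := by
    rw [Set.disjoint_left]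
    rintro x ⟨_, h1⟩ ⟨h2, _⟩
    exact absurd h1 (not_lt.mpr h2.le)
  have hR : IntegrableOn (fun θ : ℝ => Complex.exp (n * θ * I) *
      ((G : Lp Fibre 2 rho) (2 * Real.cos θ)) 1) (Ioo 0 π) := by
    have hf1 : IntegrableOn (fun θ : ℝ => ((G : Lp Fibre 2 rho) (2 * Real.cos θ)) 1)
        (Ioo 0 π) := by
      have : IsFiniteMeasure (volume.restrict (Ioo 0 π)) :=
        ⟨by rw [Measure.restrict_apply_univ, Real.volume_Ioo]; exact ENNReal.ofReal_lt_top⟩
      exact (memLp_comp G 1).integrable (by norm_num)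
    refine Integrable.bdd_mul (c := 1) hf1 ?_ ?_
    · exact Continuous.aestronglyMeasurable (by fun_prop)
    · refine Filter.Eventually.of_forall ?_
      intro θ
      have := Complex.norm_exp_ofReal_mul_I (n * θ)
      have e : ((n * θ : ℝ) : ℂ) * I = n * θ * I := by push_cast; ring
      rw [e] at this
      exact this.le
  calc ∫ θ in (0 : ℝ)..(2 * π), Complex.exp (-(n * θ * I)) * unf G θ
      = ∫ θ in Ioo 0 π ∪ Ioo π (2 * π), Complex.exp (-(n * θ * I)) * unf G θ := by
        rw [intervalIntegral.integral_of_le (by positivity), restrict_eq]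
    _ = (∫ θ in Ioo 0 π, Complex.exp (-(n * θ * I)) * unf G θ) +
        ∫ θ in Ioo π (2 * π), Complex.exp (-(n * θ * I)) * unf G θ :=
        setIntegral_union hdisj measurableSet_Ioo hU1 hU2
    _ = (∫ θ in Ioo 0 π, Complex.exp (-(n * θ * I)) *
          ((G : Lp Fibre 2 rho) (2 * Real.cos θ)) 0) +
        ∫ θ in Ioo π (2 * π), Complex.exp (-(n * θ * I)) *
          ((G : Lp Fibre 2 rho) (2 * Real.cos θ)) 1 := by
        congr 1
        · apply setIntegral_congr_fun measurableSet_Ioo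
          intro θ hθ
          simp only [unf, if_pos hθ.2]
        · apply setIntegral_congr_fun measurableSet_Ioo
          intro θ hθ
          simp only [unf, if_neg (not_lt.mpr hθ.1.le)]
    _ = (∫ θ in Ioo 0 π, Complex.exp (-(n * θ * I)) *
          ((G : Lp Fibre 2 rho) (2 * Real.cos θ)) 0) +
        ∫ θ in Ioo 0 π, Complex.exp (n * θ * I) *
          ((G : Lp Fibre 2 rho) (2 * Real.cos θ)) 1 := by
        congr 1
        have h := mp_refl.integral_comp (Homeomorph.subLeft (2 * π)).measurableEmbedding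
          (fun θ : ℝ => Complex.exp (n * θ * I) * ((G : Lp Fibre 2 rho) (2 * Real.cos θ)) 1)
        rw [← h]
        apply setIntegral_congr_fun measurableSet_Ioo
        intro θ _
        simp only [cos_refl]
        congr 1
        push_cast
        rw [show (n : ℂ) * (2 * π - θ) * I = -(n * θ * I) + n * (2 * π * I) by ring,
          Complex.exp_add, Complex.exp_int_mul_two_pi_mul_I, mul_one]
    _ = _ := by
        rw [← integral_add hI1 hR]
        apply setIntegral_congr_fun measurableSet_Ioo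
        intro θ _
        simp only
        congr 2
        · rw [← Complex.exp_int_mul, ← Complex.exp_conj]
          congr 1
          simp
          ring
        · rw [← Complex.exp_int_mul, ← Complex.exp_conj]
          congr 1
          simp
          ring

lemma coeff_unf (a : ℕ → ℂ) (ha : ∀ k, ‖a k‖ < 1) (G : fibreL2 rho mult)
    (hG : ∀ m, inner ℂ (FF a ha m) G = 0) (n : ℤ) :
    fourierCoeffOn (a := 0) (b := 2 * π) (by positivity) (unf G) n = 0 := by
  rw [fourierCoeffOn_eq_integral]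
  have h1 := orth_zpow a ha G hG n
  rw [inner_V, ← integral_unf G n] at h1
  have h2 : ((2 * π)⁻¹ : ℝ) ≠ 0 := by positivity
  have h3 : ∫ θ in (0 : ℝ)..(2 * π), Complex.exp (-(n * θ * I)) * unf G θ = 0 := by
    rcases smul_eq_zero.mp h1 with h | h
    · exact absurd h h2
    · exact h
  have h4 : ∀ θ : ℝ, fourier (-n) (θ : AddCircle (2 * π - 0)) • unf G θ =
      Complex.exp (-(n * θ * I)) * unf G θ := by
    intro θ
    rw [fourier_coe_apply, smul_eq_mul]
    congr 2
    push_cast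
    have : (π : ℂ) ≠ 0 := by exact_mod_cast pi_ne_zero
    rw [sub_zero]
    field_simp
  simp only [h4]
  rw [h3, smul_zero]

/-- Completeness of the system. -/
theorem orth_eq_zero (a : ℕ → ℂ) (ha : ∀ k, ‖a k‖ < 1) (G : fibreL2 rho mult)
    (hG : ∀ m, inner ℂ (FF a ha m) G = 0) : G = 0 := by
  have h1 := hasSum_sq_fourierCoeffOn (a := 0) (b := 2 * π) (by positivity) (memLp_unf G)
  have h2 : (fun i : ℤ => ‖fourierCoeffOn (a := 0) (b := 2 * π) (by positivity) (unf G) i‖ ^ 2) =
      fun _ => (0 : ℝ) := by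
    funext i
    rw [coeff_unf a ha G hG i]
    simp
  rw [h2] at h1
  have h3 := h1.unique hasSum_zero
  have h4 : ∫ θ in (0 : ℝ)..(2 * π), ‖unf G θ‖ ^ 2 = 0 := by
    rcases smul_eq_zero.mp h3 with h | h
    · have : (2 * π - 0 : ℝ)⁻¹ ≠ 0 := by
        rw [sub_zero]; positivity
      exact absurd h this
    · exact h
  rw [intervalIntegral.integral_of_le (by positivity)] at h4
  have h5 : Integrable (fun θ => ‖unf G θ‖ ^ 2) (volume.restrict (Ioc 0 (2 * π))) :=
    (memLp_two_iff_integrable_sq_norm (memLp_unf G).1).mp (memLp_unf G)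
  have h6 := (integral_eq_zero_iff_of_nonneg (fun θ => by positivity) h5).mp h4
  have h7 : ∀ᵐ θ ∂(volume.restrict (Ioc 0 (2 * π))), unf G θ = 0 := by
    filter_upwards [h6] with θ hθ
    simpa using hθ
  rw [restrict_eq] at h7
  have h8 : ∀ᵐ θ ∂(volume.restrict (Ioo 0 π)),
      ((G : Lp Fibre 2 rho) (2 * Real.cos θ)) 0 = 0 := by
    have := ae_restrict_of_ae_restrict_of_subset (subset_union_left (t := Ioo π (2 * π))) h7
    filter_upwards [this, ae_restrict_mem measurableSet_Ioo] with θ hθ hm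
    simpa only [unf, if_pos hm.2] using hθ
  have h9 : ∀ᵐ θ ∂(volume.restrict (Ioo π (2 * π))),
      ((G : Lp Fibre 2 rho) (2 * Real.cos θ)) 1 = 0 := by
    have := ae_restrict_of_ae_restrict_of_subset (subset_union_right (s := Ioo 0 π)) h7
    filter_upwards [this, ae_restrict_mem measurableSet_Ioo] with θ hθ hm
    simpa only [unf, if_neg (not_lt.mpr hm.1.le)] using hθ
  have mp2 : MeasurePreserving (fun θ : ℝ => 2 * π - θ)
      (volume.restrict (Ioo 0 π)) (volume.restrict (Ioo π (2 * π))) := by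
    have h := (Measure.measurePreserving_sub_left (volume : Measure ℝ)
      (2 * π)).restrict_preimage (s := Ioo π (2 * π)) measurableSet_Ioo
    have e : (fun θ : ℝ => 2 * π - θ) ⁻¹' (Ioo π (2 * π)) = Ioo 0 π := by
      ext θ
      simp only [mem_preimage, mem_Ioo]
      constructor <;> rintro ⟨h1, h2⟩ <;> constructor <;> linarith
    rwa [e] at h
  have h10 : ∀ᵐ θ ∂(volume.restrict (Ioo 0 π)),
      ((G : Lp Fibre 2 rho) (2 * Real.cos θ)) 1 = 0 := by
    have := mp2.quasiMeasurePreserving.ae h9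
    filter_upwards [this] with θ hθ
    rwa [cos_refl] at hθ
  have hsm : StronglyMeasurable ((G : Lp Fibre 2 rho) : ℝ → Fibre) :=
    Lp.stronglyMeasurable _
  have hms : ∀ α : ℕ, MeasurableSet {E : ℝ | ((G : Lp Fibre 2 rho) E) α = 0} := by
    intro α
    have hc : Continuous (fun f : Fibre => f α) := (lp.evalCLM ℂ (fun _ : ℕ => ℂ) 2 α).continuous
    have : StronglyMeasurable (fun E => ((G : Lp Fibre 2 rho) E) α) :=
      hc.comp_stronglyMeasurable hsm
    exact this.measurable (measurableSet_singleton 0)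
  have h11 : ∀ᵐ E ∂rho, ((G : Lp Fibre 2 rho) E) 0 = 0 := (ae_rho_iff (hms 0)).mpr h8
  have h12 : ∀ᵐ E ∂rho, ((G : Lp Fibre 2 rho) E) 1 = 0 := (ae_rho_iff (hms 1)).mpr h10
  have h13 : ∀ᵐ E ∂rho, ∀ α : ℕ, mult E ≤ (α : ℕ∞) → ((G : Lp Fibre 2 rho) E) α = 0 := G.2
  apply Subtype.ext
  apply Lp.ext
  filter_upwards [h11, h12, h13, ae_mem, Lp.coeFn_zero Fibre 2 rho] with E e0 e1 e2 e3 e4
  rw [Submodule.coe_zero, e4]
  apply lp.ext
  funext α
  rcases Nat.lt_or_ge α 2 with hα | hα
  · interval_cases α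
    · simpa using e0
    · simpa using e1
  · rw [e2 α (by rw [mult_of_mem e3]; exact_mod_cast hα)]
    simp

/-- The Hilbert basis `F_m`, `m ∈ ℤ`. -/
noncomputable def basisF (a : ℕ → ℂ) (ha : ∀ k, ‖a k‖ < 1) :
    HilbertBasis ℤ ℂ (fibreL2 rho mult) :=
  HilbertBasis.mkOfOrthogonalEqBot (orthonormal_FF a ha) (by
    rw [eq_bot_iff]
    intro G hG
    rw [Submodule.mem_bot]
    apply orth_eq_zero a ha G
    intro m
    exact (Submodule.mem_orthogonal _ _).mp hG _ (Submodule.subset_span ⟨m, rfl⟩))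

lemma basisF_apply (a : ℕ → ℂ) (ha : ∀ k, ‖a k‖ < 1) (m : ℤ) :
    basisF a ha m = FF a ha m := by
  have := HilbertBasis.coe_mkOfOrthogonalEqBot (orthonormal_FF a ha)
  exact congrFun (this _) m

end Pool.Agent.Lib.MP_33280d_mp
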