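import Mathlib

/-!
# Continuum eigenfunction (BGK) expansions of banded operators on `ℓ²(ℤ)`

Definitions used in the statement, following the conventions of the problem file.
Coordinates of `ℂ^{n(E)}` (with `ℂ^∞ = ℓ²(ℕ)`) are numbered from `0`.
-/

set_option autoImplicit false

open MeasureTheory

namespace Pool.Agent.Lib.MP_33280d_mp

/-- The Hilbert space `ℓ²(ℤ)` of complex sequences. -/
abbrev SeqSpace : Type := lp (fun _ : ℤ => ℂ) 2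

/-- The standard basis vector `δ_i` of `ℓ²(ℤ)`. -/
noncomputable def basisVec (i : ℤ) : SeqSpace := lp.single 2 i (1 : ℂ)

/-- The matrix element `a_{ij} = (δ_i, A δ_j)`. -/
noncomputable def matElt (A : SeqSpace →L[ℂ] SeqSpace) (i j : ℤ) : ℂ :=
  inner ℂ (basisVec i) (A (basisVec j))

/-- `A` is banded: `a_{ij} = 0` whenever `|i - j| ≥ K`. -/
def IsBanded (A : SeqSpace →L[ℂ] SeqSpace) (K : ℕ) : Prop :=
  ∀ i j : ℤ, (K : ℤ) ≤ |i - j| → matElt A i j = 0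

/-- The square of the `L²` norm of `F`: the integral of `∑_α |F_α(E)|²` against `ρ`. -/
noncomputable def sqNorm (ρ : Measure ℝ) (F : ℝ → ℕ → ℂ) : ENNReal :=
  ∫⁻ E, ∑' α : ℕ, ‖F E α‖ₑ ^ 2 ∂ρ

/-- `F` represents an element of `L²(ℝ; ℂ^{n(E)}; dρ)`, with `F E α` the coordinate `α` of
`F(E)`: the coordinates are measurable, `F(E) ∈ ℂ^{n(E)}`, and the `L²` norm is finite. -/
structure IsSection (ρ : Measure ℝ) (n : ℝ → ℕ∞) (F : ℝ → ℕ → ℂ) : Prop where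
  /-- the coordinates are measurable -/
  measurable : ∀ α : ℕ, Measurable (fun E : ℝ => F E α)
  /-- `F(E) ∈ ℂ^{n(E)}` -/
  fibre : ∀ (E : ℝ) (α : ℕ), n E ≤ (α : ℕ∞) → F E α = 0
  /-- square integrability -/
  sq_integrable : sqNorm ρ F < ⊤

/-- `U` is a unitary map of `ℓ²(ℤ)` onto `L²(ℝ; ℂ^{n(E)}; dρ)`, functions that agree `ρ`-almost
everywhere being identified. -/
structure IsUnitaryOnto (ρ : Measure ℝ) (n : ℝ → ℕ∞) (U : SeqSpace → ℝ → ℕ → ℂ) : Prop where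
  /-- `U` maps into `L²(ℝ; ℂ^{n(E)}; dρ)` -/
  mem : ∀ g : SeqSpace, IsSection ρ n (U g)
  /-- `U` is additive -/
  add : ∀ f g : SeqSpace, ∀ᵐ E ∂ρ, ∀ α : ℕ, U (f + g) E α = U f E α + U g E α
  /-- `U` is homogeneous -/
  smul : ∀ (c : ℂ) (g : SeqSpace), ∀ᵐ E ∂ρ, ∀ α : ℕ, U (c • g) E α = c * U g E α
  /-- `U` is isometric -/
  isometric : ∀ g : SeqSpace, sqNorm ρ (U g) = ‖g‖ₑ ^ 2
  /-- `U` is onto `L²(ℝ; ℂ^{n(E)}; dρ)` -/
  onto : ∀ F : ℝ → ℕ → ℂ, IsSection ρ n F → ∃ g : SeqSpace, ∀ᵐ E ∂ρ, ∀ α : ℕ, U g E α = F E α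

/-- `(ρ, n, u)` is a BGK expansion (continuum eigenfunction expansion) of the operator `A`:
`u E α` is the sequence `u_α(E; ·)`, for `α < n(E)`. -/
structure IsBGK (A : SeqSpace →L[ℂ] SeqSpace) (ρ : Measure ℝ) (n : ℝ → ℕ∞)
    (u : ℝ → ℕ → ℤ → ℂ) : Prop where
  /-- the multiplicity function is measurable -/
  n_measurable : Measurable n
  /-- `n(E) ≥ 1` for `ρ`-almost every `E` -/
  n_pos : ∀ᵐ E ∂ρ, 1 ≤ n E
  /-- `n(E) = 0` off the support of `ρ` -/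
  n_zero : ∀ E : ℝ, E ∉ ρ.support → n E = 0
  /-- for each `E` the sequences `u_α(E; ·)`, `α < n(E)`, are linearly independent -/
  linInd : ∀ E : ℝ, LinearIndependent ℂ (fun α : {α : ℕ // (α : ℕ∞) < n E} => u E α)
  /-- (a) growth bound, with one constant for all `E` and `α` -/
  growth : ∃ C : ℝ, ∀ (E : ℝ) (α : ℕ), (α : ℕ∞) < n E →
    ∀ m : ℤ, ‖u E α m‖ ≤ C * (1 + |(m : ℝ)|)
  /-- (b) `∑_j a_{ij} u_α(E;j) = E u_α(E;i)` -/
  eigen : ∀ (E : ℝ) (α : ℕ), (α : ℕ∞) < n E →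
    ∀ i : ℤ, HasSum (fun j : ℤ => matElt A i j * u E α j) ((E : ℂ) * u E α i)
  /-- (c), (d): there is a unitary map `U` of `ℓ²(ℤ)` onto `L²(ℝ; ℂ^{n(E)}; dρ)` with
  `(U g)_α(E) = ∑_m conj (u_α(E;m)) g(m)` for all finitely supported `g`, and
  `U (A g) (E) = E (U g)(E)` for all `g`. -/
  expansion : ∃ U : SeqSpace → ℝ → ℕ → ℂ, IsUnitaryOnto ρ n U ∧
    (∀ g : SeqSpace, {m : ℤ | g m ≠ 0}.Finite → ∀ᵐ E ∂ρ, ∀ α : ℕ, (α : ℕ∞) < n E →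
      U g E α = ∑ᶠ m : ℤ, starRingEnd ℂ (u E α m) * g m) ∧
    (∀ g : SeqSpace, ∀ᵐ E ∂ρ, ∀ α : ℕ, U (A g) E α = (E : ℂ) * U g E α)

end Pool.Agent.Lib.MP_33280d_mp
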