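import Pool.Agent.Lib.MP_33280d_mp.Defs

/-!
The space `L²(ℝ; ℂ^{n(E)}; dρ)` as a closed subspace of `L²(ρ; ℓ²(ℕ))` (used in the proof only).
-/

set_option autoImplicit false

open MeasureTheory
open scoped ENNReal

namespace Pool.Agent.Lib.MP_33280d_mp

/-- `ℂ^∞ = ℓ²(ℕ)`. -/
abbrev Fibre : Type := lp (fun _ : ℕ => ℂ) 2

/-- The Hilbert space `L²(ℝ; ℂ^{n(E)}; dρ)`. -/
def fibreL2 (ρ : Measure ℝ) (n : ℝ → ℕ∞) : Submodule ℂ (Lp Fibre 2 ρ) where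
  carrier := {F | ∀ᵐ E ∂ρ, ∀ α : ℕ, n E ≤ (α : ℕ∞) → (F E) α = 0}
  zero_mem' := by
    filter_upwards [Lp.coeFn_zero Fibre 2 ρ] with E hE α _
    rw [hE]
    rfl
  add_mem' := by
    intro F G hF hG
    filter_upwards [hF, hG, Lp.coeFn_add F G] with E h₁ h₂ h₃ α hα
    rw [h₃, Pi.add_apply, lp.coeFn_add, Pi.add_apply, h₁ α hα, h₂ α hα, add_zero]
  smul_mem' := by
    intro c F hF
    filter_upwards [hF, Lp.coeFn_smul c F] with E h₁ h₂ α hα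
    rw [h₂, Pi.smul_apply, lp.coeFn_smul, Pi.smul_apply, h₁ α hα, smul_zero]

lemma enorm_sq_fibre (f : Fibre) : ‖f‖ₑ ^ 2 = ∑' α : ℕ, ‖f α‖ₑ ^ 2 := by
  have h2 : (2 : ℝ≥0∞).toReal = 2 := by norm_num
  have h := lp.norm_rpow_eq_tsum (p := 2) (by norm_num) f
  rw [h2] at h
  have hs : Summable (fun α : ℕ => ‖f α‖ ^ (2 : ℝ)) := by
    have := (lp.memℓp f).summable (by norm_num)
    rwa [h2] at this
  have e1 : ‖f‖ₑ ^ 2 = ENNReal.ofReal (‖f‖ ^ (2 : ℝ)) := by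
    rw [Real.rpow_two, ENNReal.ofReal_pow (norm_nonneg _), ofReal_norm]
  rw [e1, h, ENNReal.ofReal_tsum_of_nonneg (fun α => by positivity) hs]
  congr 1
  funext α
  rw [Real.rpow_two, ENNReal.ofReal_pow (norm_nonneg _), ofReal_norm]

lemma lintegral_sq_eq (ρ : Measure ℝ) (F : Lp Fibre 2 ρ) :
    ∫⁻ E, ‖F E‖ₑ ^ 2 ∂ρ = ‖F‖ₑ ^ 2 := by
  rw [Lp.enorm_def, eLpNorm_eq_lintegral_rpow_enorm_toReal (by norm_num) (by norm_num)]
  have h2 : (2 : ℝ≥0∞).toReal = 2 := by norm_num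
  rw [h2]
  rw [← ENNReal.rpow_natCast _ 2, ← ENNReal.rpow_mul]
  norm_num

end Pool.Agent.Lib.MP_33280d_mp
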