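import Pool.Agent.Lib.MP_33280d_mp.Complete

set_option autoImplicit false

open Complex MeasureTheory Real Filter ComplexConjugate Set Topology
open scoped ENNReal

namespace Pool.Agent.Lib.MP_33280d_mp

/-- clipped energy -/
noncomputable def clip (E : ℝ) : ℂ := ((max (-2) (min 2 E) : ℝ) : ℂ)

lemma clip_of_mem {E : ℝ} (hE : E ∈ Ioo (-2 : ℝ) 2) : clip E = (E : ℂ) := by
  unfold clip
  rw [min_eq_right hE.2.le, max_eq_right hE.1.le]

lemma clip_memLp : MemLp clip ∞ rho := by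
  refine memLp_top_of_bound (C := 2) ?_ ?_
  · apply Continuous.aestronglyMeasurable
    unfold clip
    fun_prop
  · filter_upwards with E
    unfold clip
    rw [Complex.norm_real, Real.norm_eq_abs, abs_le]
    constructor
    · exact le_max_left _ _
    · exact max_le (by norm_num) (min_le_left _ _)

/-- Multiplication by the (clipped) energy on `L²(ρ; ℓ²(ℕ))`. -/
noncomputable def M0 : Lp Fibre 2 rho →L[ℂ] Lp Fibre 2 rho :=
  (ContinuousLinearMap.lsmul ℂ ℂ : ℂ →L[ℂ] Fibre →L[ℂ] Fibre).holderL rho ∞ 2 2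
    (clip_memLp.toLp clip)

lemma M0_apply (F : Lp Fibre 2 rho) : ∀ᵐ E ∂rho, (M0 F : ℝ → Fibre) E = (E : ℂ) • (F E) := by
  have h1 : ((M0 F : Lp Fibre 2 rho) : ℝ → Fibre) =ᵐ[rho]
      fun E => (ContinuousLinearMap.lsmul ℂ ℂ : ℂ →L[ℂ] Fibre →L[ℂ] Fibre)
        ((clip_memLp.toLp clip : Lp ℂ ∞ rho) E) (F E) :=
    ContinuousLinearMap.coeFn_holder (B := (ContinuousLinearMap.lsmul ℂ ℂ)) _ _
  filter_upwards [h1, clip_memLp.coeFn_toLp, ae_mem] with E e1 e2 e3
  rw [e1, e2, clip_of_mem e3]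
  rfl

lemma M0_mem (F : fibreL2 rho mult) : M0 (F : Lp Fibre 2 rho) ∈ fibreL2 rho mult := by
  show ∀ᵐ E ∂rho, ∀ α : ℕ, mult E ≤ (α : ℕ∞) → ((M0 (F : Lp Fibre 2 rho) : ℝ → Fibre) E) α = 0
  have h2 : ∀ᵐ E ∂rho, ∀ α : ℕ, mult E ≤ (α : ℕ∞) → ((F : Lp Fibre 2 rho) E) α = 0 := F.2
  filter_upwards [M0_apply (F : Lp Fibre 2 rho), h2] with E e1 e2 α hα
  rw [e1, lp.coeFn_smul, Pi.smul_apply, e2 α hα, smul_zero]

/-- Multiplication by the energy on the fibre space. -/
noncomputable def M1 : fibreL2 rho mult →L[ℂ] fibreL2 rho mult :=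
  (M0.comp (fibreL2 rho mult).subtypeL).codRestrict (fibreL2 rho mult) (fun F => M0_mem F)

lemma M1_apply (F : fibreL2 rho mult) :
    ∀ᵐ E ∂rho, ((M1 F : Lp Fibre 2 rho) : ℝ → Fibre) E = (E : ℂ) • ((F : Lp Fibre 2 rho) E) :=
  M0_apply (F : Lp Fibre 2 rho)

lemma M1_symm (F G : fibreL2 rho mult) : inner ℂ (M1 F) G = inner ℂ F (M1 G) := by
  rw [Submodule.coe_inner, Submodule.coe_inner, L2.inner_def, L2.inner_def]
  apply integral_congr_ae
  filter_upwards [M1_apply F, M1_apply G] with E e1 e2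
  rw [e1, e2, inner_smul_left, inner_smul_right, Complex.conj_ofReal]

/-- The unitary `U`. -/
noncomputable def UU (a : ℕ → ℂ) (ha : ∀ k, ‖a k‖ < 1) : SeqSpace ≃ₗᵢ[ℂ] fibreL2 rho mult :=
  (basisF a ha).repr.symm

lemma UU_basis (a : ℕ → ℂ) (ha : ∀ k, ‖a k‖ < 1) (m : ℤ) :
    UU a ha (basisVec m) = FF a ha m := by
  rw [UU, basisVec, HilbertBasis.repr_symm_single, basisF_apply]

/-- The operator `A`. -/
noncomputable def AA (a : ℕ → ℂ) (ha : ∀ k, ‖a k‖ < 1) : SeqSpace →L[ℂ] SeqSpace :=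
  ((UU a ha).symm.toContinuousLinearEquiv : fibreL2 rho mult →L[ℂ] SeqSpace).comp
    (M1.comp ((UU a ha).toContinuousLinearEquiv : SeqSpace →L[ℂ] fibreL2 rho mult))

lemma UU_AA (a : ℕ → ℂ) (ha : ∀ k, ‖a k‖ < 1) (g : SeqSpace) :
    UU a ha (AA a ha g) = M1 (UU a ha g) := by
  simp [AA]

lemma inner_AA (a : ℕ → ℂ) (ha : ∀ k, ‖a k‖ < 1) (f g : SeqSpace) :
    inner ℂ f (AA a ha g) = inner ℂ (UU a ha f) (M1 (UU a ha g)) := by
  rw [← UU_AA, LinearIsometryEquiv.inner_map_map]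

lemma selfAdjoint_AA (a : ℕ → ℂ) (ha : ∀ k, ‖a k‖ < 1) : IsSelfAdjoint (AA a ha) := by
  rw [ContinuousLinearMap.isSelfAdjoint_iff_isSymmetric]
  intro f g
  show inner ℂ (AA a ha f) g = inner ℂ f (AA a ha g)
  have h1 : inner ℂ (AA a ha f) g = inner ℂ (UU a ha (AA a ha f)) (UU a ha g) :=
    ((UU a ha).inner_map_map _ _).symm
  rw [h1, UU_AA, inner_AA, M1_symm]

lemma M1_V (φ ψ : ℂ → ℂ) (hφ : ContinuousOn φ (Metric.sphere 0 1))
    (hψ : ContinuousOn ψ (Metric.sphere 0 1))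
    (h : ∀ z : ℂ, ‖z‖ = 1 → ψ z = (z + z⁻¹) * φ z) : M1 (V φ hφ) = V ψ hψ := by
  apply Subtype.ext
  apply Lp.ext
  filter_upwards [M1_apply (V φ hφ), V_coe φ hφ, V_coe ψ hψ, ae_mem] with E e1 e2 e3 e4
  rw [e1, e2, e3]
  apply lp.ext
  funext α
  rw [lp.coeFn_smul, Pi.smul_apply, smul_eq_mul]
  rcases Nat.lt_or_ge α 2 with hα | hα
  · interval_cases α
    · rw [vec_apply_zero, vec_apply_zero, h _ (norm_zpt _ _), zpt_add_inv e4]
    · rw [vec_apply_one, vec_apply_one, h _ (norm_zpt _ _), zpt_add_inv e4]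
  · rw [vec_apply_ge _ _ α hα, vec_apply_ge _ _ α hα, mul_zero]

/-- band coefficients -/
noncomputable def cc (a : ℕ → ℂ) (ha : ∀ k, ‖a k‖ < 1) (j : ℤ) : ℤ → ℂ :=
  (band_sum a ha j).choose

lemma cc_spec (a : ℕ → ℂ) (ha : ∀ k, ‖a k‖ < 1) (j : ℤ) :
    Band a (fun z => z + z⁻¹) j (cc a ha j) := (band_sum a ha j).choose_spec

lemma M1_FF (a : ℕ → ℂ) (ha : ∀ k, ‖a k‖ < 1) (j : ℤ) :
    M1 (FF a ha j) = ∑ i ∈ Finset.Icc (j - 2) (j + 2), cc a ha j i • FF a ha i := by
  have hc : ContinuousOn (fun z => (z + z⁻¹) * ff a j z) (Metric.sphere 0 1) := by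
    refine ContinuousOn.mul ?_ (ff_cont a ha j)
    refine continuousOn_id.add ?_
    apply ContinuousOn.inv₀ continuousOn_id
    intro z hz
    exact ne_zero_of_norm (by simpa using hz)
  rw [FF, M1_V (ff a j) (fun z => (z + z⁻¹) * ff a j z) (ff_cont a ha j) hc (fun z _ => rfl)]
  exact V_eq_sum a ha _ hc _ _ (cc_spec a ha j).2

lemma matElt_AA (a : ℕ → ℂ) (ha : ∀ k, ‖a k‖ < 1) (i j : ℤ) :
    matElt (AA a ha) i j = cc a ha j i := by
  classical
  rw [matElt, inner_AA, UU_basis, UU_basis, M1_FF, inner_sum]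
  have h1 : ∀ l : ℤ, inner ℂ (FF a ha i) (cc a ha j l • FF a ha l) =
      cc a ha j l * (if i = l then 1 else 0) := by
    intro l
    have h2 : inner ℂ (FF a ha i) (cc a ha j l • FF a ha l) =
        cc a ha j l * inner ℂ (FF a ha i) (FF a ha l) :=
      inner_smul_right (𝕜 := ℂ) (FF a ha i) (FF a ha l) (cc a ha j l)
    rw [h2, orthonormal_iff_ite.mp (orthonormal_FF a ha)]
  simp only [h1, mul_ite, mul_one, mul_zero, Finset.sum_ite_eq]
  split_ifs with h
  · rfl
  · exact ((cc_spec a ha j).1 i h).symm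

lemma banded_AA (a : ℕ → ℂ) (ha : ∀ k, ‖a k‖ < 1) : IsBanded (AA a ha) 3 := by
  intro i j hij
  rw [matElt_AA]
  apply (cc_spec a ha j).1
  rw [Finset.mem_Icc]
  rintro ⟨h1, h2⟩
  have : |i - j| ≤ 2 := abs_le.mpr ⟨by linarith, by linarith⟩
  push_cast at hij
  omega

lemma matElt_conj (A : SeqSpace →L[ℂ] SeqSpace) (hA : IsSelfAdjoint A) (i j : ℤ) :
    matElt A i j = conj (matElt A j i) := by
  rw [matElt, matElt, inner_conj_symm]
  rw [ContinuousLinearMap.isSelfAdjoint_iff_isSymmetric] at hA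
  exact (hA (basisVec i) (basisVec j)).symm

lemma eigen_AA (a : ℕ → ℂ) (ha : ∀ k, ‖a k‖ < 1) {E : ℝ} (hE : E ∈ Ioo (-2 : ℝ) 2) (α : ℕ)
    (i : ℤ) : HasSum (fun j : ℤ => matElt (AA a ha) i j * uu a E α j) ((E : ℂ) * uu a E α i) := by
  have h1 : ∀ j : ℤ, matElt (AA a ha) i j * uu a E α j =
      conj (cc a ha i j * ff a j (zpt E α)) := by
    intro j
    rw [matElt_conj _ (selfAdjoint_AA a ha), matElt_AA, uu, map_mul]
  have h2 : (E : ℂ) * uu a E α i =
      ∑ j ∈ Finset.Icc (i - 2) (i + 2), conj (cc a ha i j * ff a j (zpt E α)) := by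
    have h3 := (cc_spec a ha i).2 (zpt E α) (norm_zpt E α)
    simp only [zpt_add_inv hE] at h3
    rw [← map_sum, ← h3, map_mul, Complex.conj_ofReal, uu]
  simp only [h1]
  rw [h2]
  apply hasSum_sum_of_ne_finset_zero
  intro j hj
  rw [(cc_spec a ha i).1 j hj, zero_mul, map_zero]

lemma zpt_ne {E : ℝ} (hE : E ∈ Ioo (-2 : ℝ) 2) : zpt E 0 ≠ zpt E 1 := by
  intro h
  have h0 : 0 < Real.arccos (E / 2) := Real.arccos_pos.mpr (by linarith [hE.2])
  have h1 : Real.arccos (E / 2) < π := Real.arccos_lt_pi.mpr (by linarith [hE.1])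
  have h2 := congrArg Complex.im h
  simp only [zpt, if_true, one_ne_zero, if_false] at h2
  rw [Complex.exp_ofReal_mul_I_im, ← Complex.ofReal_neg, Complex.exp_ofReal_mul_I_im,
    Real.sin_neg] at h2
  have := Real.sin_pos_of_pos_of_lt_pi h0 h1
  linarith

lemma uu_zero (a : ℕ → ℂ) (E : ℝ) (α : ℕ) : uu a E α 0 = 1 := by
  rw [uu, ff_zero, map_one]

lemma uu_neg_one (a : ℕ → ℂ) (E : ℝ) (α : ℕ) : uu a E α (-1) = zpt E α := by
  rw [uu, ff_neg a (by norm_num), zpow_neg_one, map_inv₀, conj_eq_inv (norm_zpt E α), inv_inv]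

lemma linInd_uu (a : ℕ → ℂ) (E : ℝ) :
    LinearIndependent ℂ (fun α : {α : ℕ // (α : ℕ∞) < mult E} => uu a E α) := by
  by_cases hE : E ∈ Ioo (-2 : ℝ) 2
  · have h0 : {α : ℕ | (α : ℕ∞) < mult E} = {0, 1} := by
      ext α
      rw [mult_of_mem hE]
      simp only [mem_ofPred_eq, mem_insert_iff, mem_singleton_iff]
      constructor
      · intro h
        have : α < 2 := by exact_mod_cast h
        omega
      · rintro (rfl | rfl)
        · norm_num
        · norm_num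
    have h1 : LinearIndepOn ℂ (uu a E) {α : ℕ | (α : ℕ∞) < mult E} := by
      rw [h0, LinearIndepOn.pair_iff _ (by norm_num)]
      intro c d hcd
      have e0 := congrFun hcd 0
      have e1 := congrFun hcd (-1)
      simp only [Pi.add_apply, Pi.smul_apply, smul_eq_mul, uu_zero, uu_neg_one, Pi.zero_apply,
        mul_one] at e0 e1
      have hz := zpt_ne hE
      have hd : d = -c := by linear_combination e0
      rw [hd] at e1
      have : c * (zpt E 0 - zpt E 1) = 0 := by linear_combination e1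
      rcases mul_eq_zero.mp this with h | h
      · exact ⟨h, by rw [hd, h, neg_zero]⟩
      · exact absurd (sub_eq_zero.mp h) hz
    exact h1
  · have : IsEmpty {α : ℕ // (α : ℕ∞) < mult E} := by
      constructor
      rintro ⟨α, hα⟩
      rw [mult_of_not_mem hE] at hα
      exact absurd hα (not_lt.mpr zero_le)
    exact linearIndependent_empty_type

lemma mem_support_rho {E : ℝ} (hE : E ∈ Ioo (-2 : ℝ) 2) : E ∈ rho.support := by
  rw [Measure.mem_support_iff_forall]
  intro W hW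
  set θ₀ := Real.arccos (E / 2) with hθ₀
  have h0 : 0 < θ₀ := Real.arccos_pos.mpr (by linarith [hE.2])
  have h1 : θ₀ < π := Real.arccos_lt_pi.mpr (by linarith [hE.1])
  have hcos : 2 * Real.cos θ₀ = E := by
    rw [hθ₀, Real.cos_arccos (by linarith [hE.1]) (by linarith [hE.2])]
    ring
  have hcont : ContinuousAt (fun θ : ℝ => 2 * Real.cos θ) θ₀ := by fun_prop
  have hpre : (fun θ : ℝ => 2 * Real.cos θ) ⁻¹' W ∈ 𝓝 θ₀ := hcont (by
    show W ∈ 𝓝 (2 * Real.cos θ₀)
    rw [hcos]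
    exact hW)
  have hnb : (fun θ : ℝ => 2 * Real.cos θ) ⁻¹' W ∩ Ioo 0 π ∈ 𝓝 θ₀ :=
    inter_mem hpre (Ioo_mem_nhds h0 h1)
  have hpos : 0 < volume ((fun θ : ℝ => 2 * Real.cos θ) ⁻¹' W ∩ Ioo 0 π) :=
    Measure.measure_pos_of_mem_nhds _ hnb
  have h2 : volume ((fun θ : ℝ => 2 * Real.cos θ) ⁻¹' W ∩ Ioo 0 π) ≤
      (Measure.map (fun θ : ℝ => 2 * Real.cos θ) (volume.restrict (Ioo 0 π))) W := by
    refine le_trans ?_ (Measure.le_map_apply meas_cos.aemeasurable W)
    exact Measure.le_restrict_apply _ _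
  unfold rho
  rw [Measure.smul_apply, smul_eq_mul]
  exact ENNReal.mul_pos const_ne (hpos.trans_le h2).ne'

lemma measurable_mult : Measurable mult := by
  unfold mult
  exact Measurable.ite measurableSet_Ioo measurable_const measurable_const

lemma expansion_UU (a : ℕ → ℂ) (ha : ∀ k, ‖a k‖ < 1) (g : SeqSpace)
    (hg : {m : ℤ | g m ≠ 0}.Finite) : ∀ᵐ E ∂rho, ∀ α : ℕ, (α : ℕ∞) < mult E →
      ((UU a ha g : Lp Fibre 2 rho) E) α = ∑ᶠ m : ℤ, starRingEnd ℂ (uu a E α m) * g m := by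
  classical
  have h0 : g = ∑ m ∈ hg.toFinset, g m • basisVec m := by
    apply lp.ext
    funext k
    rw [lp.coeFn_sum, Finset.sum_apply]
    simp only [lp.coeFn_smul, Pi.smul_apply, basisVec, lp.single_apply, smul_eq_mul]
    by_cases hk : g k = 0
    · rw [Finset.sum_eq_zero, hk]
      intro m _
      by_cases hkm : k = m
      · subst hkm; simp [hk]
      · simp [hkm]
    · rw [Finset.sum_eq_single k]
      · simp
      · intro m _ hm
        simp [Ne.symm hm]
      · intro h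
        exact absurd (by simpa using hk) (by simpa using h)
  have h1 : UU a ha g = ∑ m ∈ hg.toFinset, g m • FF a ha m := by
    conv_lhs => rw [h0]
    rw [map_sum]
    apply Finset.sum_congr rfl
    intro m _
    rw [map_smul, UU_basis]
  have hcont : ContinuousOn (fun z => ∑ m ∈ hg.toFinset, g m * ff a m z)
      (Metric.sphere 0 1) := by
    refine continuousOn_finsetSum _ ?_
    intro m _
    exact continuousOn_const.mul (ff_cont a ha m)
  have h2 : UU a ha g = V (fun z => ∑ m ∈ hg.toFinset, g m * ff a m z) hcont := by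
    rw [h1, V_eq_sum a ha _ hcont hg.toFinset (fun m => g m) (fun z _ => rfl)]
  rw [h2]
  filter_upwards [V_coe _ hcont, ae_mem] with E e1 e2 α hα
  rw [e1]
  have hα' : α < 2 := by
    rw [mult_of_mem e2] at hα
    exact_mod_cast hα
  have h3 : vec (fun z => ∑ m ∈ hg.toFinset, g m * ff a m z) E α =
      ∑ m ∈ hg.toFinset, g m * ff a m (zpt E α) := by
    interval_cases α
    · rw [vec_apply_zero]
    · rw [vec_apply_one]
  rw [h3, finsum_eq_sum_of_support_subset (s := hg.toFinset)]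
  · apply Finset.sum_congr rfl
    intro m _
    rw [uu, Complex.conj_conj, mul_comm]
  · intro m hm
    simp only [Function.mem_support] at hm
    have : g m ≠ 0 := right_ne_zero_of_mul hm
    simpa using this

/-! ### The unitary map, as a map into functions -/

lemma mult_le (E : ℝ) : mult E ≤ 2 := by
  by_cases hE : E ∈ Ioo (-2 : ℝ) 2
  · rw [mult_of_mem hE]
  · rw [mult_of_not_mem hE]
    exact zero_le

/-- The unitary map, with chosen representatives. -/
noncomputable def UF (a : ℕ → ℂ) (ha : ∀ k, ‖a k‖ < 1) (g : SeqSpace) (E : ℝ) (α : ℕ) : ℂ := by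
  classical exact if (α : ℕ∞) < mult E then ((UU a ha g : Lp Fibre 2 rho) : ℝ → Fibre) E α else 0

lemma UF_ae (a : ℕ → ℂ) (ha : ∀ k, ‖a k‖ < 1) (g : SeqSpace) :
    ∀ᵐ E ∂rho, ∀ α : ℕ, UF a ha g E α = ((UU a ha g : Lp Fibre 2 rho) : ℝ → Fibre) E α := by
  have h2 : ∀ᵐ E ∂rho, ∀ α : ℕ, mult E ≤ (α : ℕ∞) → ((UU a ha g : Lp Fibre 2 rho) E) α = 0 :=
    (UU a ha g).2
  filter_upwards [h2] with E hE α
  unfold UF
  split_ifs with h
  · rfl
  · exact (hE α (not_lt.mp h)).symm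

lemma sqNorm_eq (F : ℝ → ℕ → ℂ) (G : Lp Fibre 2 rho)
    (h : ∀ᵐ E ∂rho, ∀ α : ℕ, F E α = (G : ℝ → Fibre) E α) : sqNorm rho F = ‖G‖ₑ ^ 2 := by
  rw [← lintegral_sq_eq, sqNorm]
  apply lintegral_congr_ae
  filter_upwards [h] with E hE
  rw [enorm_sq_fibre]
  simp only [hE]

lemma sqNorm_UF (a : ℕ → ℂ) (ha : ∀ k, ‖a k‖ < 1) (g : SeqSpace) :
    sqNorm rho (UF a ha g) = ‖g‖ₑ ^ 2 := by
  rw [sqNorm_eq _ _ (UF_ae a ha g)]
  have h1 : ‖((UU a ha g : fibreL2 rho mult) : Lp Fibre 2 rho)‖ = ‖g‖ := (UU a ha).norm_map g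
  rw [← ofReal_norm, h1, ofReal_norm]

lemma isSection_UF (a : ℕ → ℂ) (ha : ∀ k, ‖a k‖ < 1) (g : SeqSpace) :
    IsSection rho mult (UF a ha g) where
  measurable := by
    intro α
    have h1 : Measurable (fun E : ℝ => ((UU a ha g : Lp Fibre 2 rho) : ℝ → Fibre) E α) := by
      have h2 : StronglyMeasurable ((UU a ha g : Lp Fibre 2 rho) : ℝ → Fibre) :=
        Lp.stronglyMeasurable _
      exact ((lp.evalCLM ℂ (fun _ : ℕ => ℂ) 2 α).continuous.comp_stronglyMeasurable h2).measurable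
    unfold UF
    have h3 : MeasurableSet {E : ℝ | (α : ℕ∞) < mult E} :=
      measurable_mult (MeasurableSet.of_discrete (s := {x : ℕ∞ | (α : ℕ∞) < x}))
    exact Measurable.ite h3 h1 measurable_const
  fibre := by
    intro E α h
    unfold UF
    rw [if_neg (not_lt.mpr h)]
  sq_integrable := by
    rw [sqNorm_UF]
    exact ENNReal.pow_lt_top enorm_lt_top

lemma isUnitaryOnto_UF (a : ℕ → ℂ) (ha : ∀ k, ‖a k‖ < 1) : IsUnitaryOnto rho mult (UF a ha) where
  mem := isSection_UF a ha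
  add := by
    intro f g
    have h1 : ((UU a ha (f + g) : fibreL2 rho mult) : Lp Fibre 2 rho) =
        (UU a ha f : Lp Fibre 2 rho) + (UU a ha g : Lp Fibre 2 rho) := by
      rw [map_add, Submodule.coe_add]
    filter_upwards [UF_ae a ha f, UF_ae a ha g, UF_ae a ha (f + g),
      Lp.coeFn_add (UU a ha f : Lp Fibre 2 rho) (UU a ha g : Lp Fibre 2 rho)]
      with E e1 e2 e3 e4 α
    rw [e1, e2, e3, h1, e4, Pi.add_apply, lp.coeFn_add, Pi.add_apply]
  smul := by
    intro c g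
    have h1 : ((UU a ha (c • g) : fibreL2 rho mult) : Lp Fibre 2 rho) =
        c • (UU a ha g : Lp Fibre 2 rho) := by
      rw [map_smul, Submodule.coe_smul]
    filter_upwards [UF_ae a ha g, UF_ae a ha (c • g),
      Lp.coeFn_smul c (UU a ha g : Lp Fibre 2 rho)] with E e1 e2 e3 α
    rw [e1, e2, h1, e3, Pi.smul_apply, lp.coeFn_smul, Pi.smul_apply, smul_eq_mul]
  isometric := sqNorm_UF a ha
  onto := by
    intro F hF
    -- the vector valued function
    set G : ℝ → Fibre := fun E => lp.single 2 0 (F E 0) + lp.single 2 1 (F E 1) with hG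
    have hcoord : ∀ E (α : ℕ), (G E) α = F E α := by
      intro E α
      rcases Nat.lt_or_ge α 2 with hα | hα
      · interval_cases α
        · simp [hG, lp.single_apply]
        · simp [hG, lp.single_apply]
      · have h0 : α ≠ 0 := by omega
        have h1 : α ≠ 1 := by omega
        have h2 : mult E ≤ (α : ℕ∞) := (mult_le E).trans (by exact_mod_cast hα)
        rw [hF.fibre E α h2]
        simp [hG, lp.single_apply, h0, h1]
    have hmeas : StronglyMeasurable G := by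
      refine StronglyMeasurable.add ?_ ?_
      · exact (lp.singleContinuousLinearMap ℂ (fun _ : ℕ => ℂ) 2 0).continuous.comp_stronglyMeasurable
          (hF.measurable 0).stronglyMeasurable
      · exact (lp.singleContinuousLinearMap ℂ (fun _ : ℕ => ℂ) 2 1).continuous.comp_stronglyMeasurable
          (hF.measurable 1).stronglyMeasurable
    have hmem : MemLp G 2 rho := by
      refine ⟨hmeas.aestronglyMeasurable, ?_⟩
      rw [eLpNorm_eq_lintegral_rpow_enorm_toReal (by norm_num) (by norm_num)]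
      have h2 : (2 : ℝ≥0∞).toReal = 2 := by norm_num
      rw [h2]
      refine ENNReal.rpow_lt_top_of_nonneg (by norm_num) ?_
      have h3 : ∫⁻ E, ‖G E‖ₑ ^ (2 : ℝ) ∂rho = sqNorm rho F := by
        rw [sqNorm]
        apply lintegral_congr
        intro E
        have h4 := enorm_sq_fibre (G E)
        simp only [hcoord] at h4
        rw [← h4]
        exact ENNReal.rpow_natCast _ 2
      rw [h3]
      exact hF.sq_integrable.ne
    have hm : hmem.toLp G ∈ fibreL2 rho mult := by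
      show ∀ᵐ E ∂rho, ∀ α : ℕ, mult E ≤ (α : ℕ∞) → ((hmem.toLp G : ℝ → Fibre) E) α = 0
      filter_upwards [hmem.coeFn_toLp] with E h1 α hα
      rw [h1, hcoord, hF.fibre E α hα]
    refine ⟨(UU a ha).symm ⟨hmem.toLp G, hm⟩, ?_⟩
    filter_upwards [UF_ae a ha ((UU a ha).symm ⟨hmem.toLp G, hm⟩), hmem.coeFn_toLp]
      with E e1 e2 α
    rw [e1, LinearIsometryEquiv.apply_symm_apply, e2, hcoord]

/-- The general construction. -/
theorem isBGK_AA (a : ℕ → ℂ) (ha : ∀ k, ‖a k‖ < 1)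
    (hgr : ∃ C : ℝ, ∀ z : ℂ, ‖z‖ = 1 → ∀ m : ℤ, ‖ff a m z‖ ≤ C * (1 + |(m : ℝ)|)) :
    IsBGK (AA a ha) rho mult (uu a) where
  n_measurable := measurable_mult
  n_pos := by
    filter_upwards [ae_mem] with E hE
    rw [mult_of_mem hE]
    norm_num
  n_zero := by
    intro E hE
    apply mult_of_not_mem
    intro h
    exact hE (mem_support_rho h)
  linInd := linInd_uu a
  growth := by
    obtain ⟨C, hC⟩ := hgr
    refine ⟨C, fun E α _ m => ?_⟩
    rw [uu, Complex.norm_conj]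
    exact hC _ (norm_zpt E α) m
  eigen := by
    intro E α hα i
    by_cases hE : E ∈ Ioo (-2 : ℝ) 2
    · exact eigen_AA a ha hE α i
    · rw [mult_of_not_mem hE] at hα
      exact absurd hα (not_lt.mpr zero_le)
  expansion := by
    refine ⟨UF a ha, isUnitaryOnto_UF a ha, ?_, ?_⟩
    · intro g hg
      filter_upwards [expansion_UU a ha g hg, UF_ae a ha g] with E e1 e2 α hα
      rw [e2, e1 α hα]
    · intro g
      filter_upwards [M1_apply (UU a ha g), UF_ae a ha g, UF_ae a ha (AA a ha g)]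
        with E e1 e2 e3 α
      rw [e3, UU_AA, e1, e2, lp.coeFn_smul, Pi.smul_apply, smul_eq_mul]

end Pool.Agent.Lib.MP_33280d_mp
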