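import Pool.Agent.Lib.MP_33280d_mp.Fibre
import Pool.Agent.Lib.MP_33280d_mp.Basis

set_option autoImplicit false

open Complex MeasureTheory Real Filter ComplexConjugate Set

namespace Pool.Agent.Lib.MP_33280d_mp

/-- The spectral measure: half of the arcsine law on `(-2,2)`. -/
noncomputable def rho : Measure ℝ :=
  ENNReal.ofReal ((2 * π)⁻¹) •
    Measure.map (fun θ : ℝ => 2 * Real.cos θ) (volume.restrict (Ioo 0 π))

/-- The multiplicity function. -/
noncomputable def mult (E : ℝ) : ℕ∞ := by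
  classical exact if E ∈ Ioo (-2 : ℝ) 2 then 2 else 0

/-- The two points of the unit circle above the energy `E`. -/
noncomputable def zpt (E : ℝ) (α : ℕ) : ℂ :=
  if α = 0 then Complex.exp ((Real.arccos (E / 2) : ℝ) * I)
  else Complex.exp (-((Real.arccos (E / 2) : ℝ) : ℂ) * I)

/-- The generalized eigenfunctions. -/
noncomputable def uu (a : ℕ → ℂ) (E : ℝ) (α : ℕ) (m : ℤ) : ℂ := conj (ff a m (zpt E α))

/-- The fibre vector attached to a function on the circle. -/
noncomputable def vec (φ : ℂ → ℂ) (E : ℝ) : Fibre :=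
  lp.single 2 0 (φ (zpt E 0)) + lp.single 2 1 (φ (zpt E 1))

lemma norm_zpt (E : ℝ) (α : ℕ) : ‖zpt E α‖ = 1 := by
  unfold zpt
  split_ifs
  · exact Complex.norm_exp_ofReal_mul_I _
  · rw [← Complex.ofReal_neg]
    exact Complex.norm_exp_ofReal_mul_I _

lemma zpt_add_inv {E : ℝ} (hE : E ∈ Ioo (-2 : ℝ) 2) (α : ℕ) :
    zpt E α + (zpt E α)⁻¹ = (E : ℂ) := by
  have h1 : Real.cos (Real.arccos (E / 2)) = E / 2 :=
    Real.cos_arccos (by linarith [hE.1]) (by linarith [hE.2])
  have h2 : Complex.cos ((Real.arccos (E / 2) : ℝ) : ℂ) = ((E / 2 : ℝ) : ℂ) := by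
    rw [← Complex.ofReal_cos, h1]
  have h3 : Complex.exp (((Real.arccos (E / 2) : ℝ) : ℂ) * I) +
      Complex.exp (-((Real.arccos (E / 2) : ℝ) : ℂ) * I) = (E : ℂ) := by
    rw [Complex.cos] at h2
    push_cast at h2
    linear_combination 2 * h2
  unfold zpt
  split_ifs
  · rw [← Complex.exp_neg, ← neg_mul]
    exact h3
  · rw [← Complex.exp_neg, neg_mul, neg_neg, add_comm, ← neg_mul]
    exact h3

lemma continuous_zpt (α : ℕ) : Continuous (fun E => zpt E α) := by
  unfold zpt
  split_ifs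
  · exact Complex.continuous_exp.comp
      ((Complex.continuous_ofReal.comp (Real.continuous_arccos.comp (by fun_prop))).mul
        continuous_const)
  · exact Complex.continuous_exp.comp
      ((Complex.continuous_ofReal.comp (Real.continuous_arccos.comp (by fun_prop))).neg.mul
        continuous_const)

lemma zpt_cos_zero {θ : ℝ} (hθ : θ ∈ Ioo 0 π) :
    zpt (2 * Real.cos θ) 0 = Complex.exp (θ * I) := by
  have : Real.arccos (2 * Real.cos θ / 2) = θ := by
    rw [mul_div_cancel_left₀ _ (two_ne_zero)]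
    exact Real.arccos_cos hθ.1.le hθ.2.le
  simp only [zpt, this, if_true]

lemma zpt_cos_one {θ : ℝ} (hθ : θ ∈ Ioo 0 π) :
    zpt (2 * Real.cos θ) 1 = Complex.exp (-θ * I) := by
  have : Real.arccos (2 * Real.cos θ / 2) = θ := by
    rw [mul_div_cancel_left₀ _ (two_ne_zero)]
    exact Real.arccos_cos hθ.1.le hθ.2.le
  simp only [zpt, this, one_ne_zero, if_false]

lemma meas_cos : Measurable (fun θ : ℝ => 2 * Real.cos θ) := by fun_prop

instance : IsFiniteMeasure rho := by
  unfold rho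
  have : IsFiniteMeasure (volume.restrict (Ioo (0 : ℝ) π)) := by
    constructor
    rw [Measure.restrict_apply_univ, Real.volume_Ioo]
    exact ENNReal.ofReal_lt_top
  have h2 : IsFiniteMeasure
    (Measure.map (fun θ : ℝ => 2 * Real.cos θ) (volume.restrict (Ioo 0 π))) := inferInstance
  exact Measure.smul_finite _ ENNReal.ofReal_ne_top

lemma const_ne : ENNReal.ofReal ((2 * π)⁻¹) ≠ 0 := by
  rw [Ne, ENNReal.ofReal_eq_zero, not_le]
  positivity

/-- almost everywhere statements for `rho` -/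
lemma ae_rho_iff {p : ℝ → Prop} (hp : MeasurableSet {E | p E}) :
    (∀ᵐ E ∂rho, p E) ↔ ∀ᵐ θ ∂(volume.restrict (Ioo 0 π)), p (2 * Real.cos θ) := by
  unfold rho
  rw [Measure.ae_ennreal_smul_measure_iff const_ne]
  exact ae_map_iff meas_cos.aemeasurable hp

lemma two_cos_mem {θ : ℝ} (hθ : θ ∈ Ioo 0 π) : 2 * Real.cos θ ∈ Ioo (-2 : ℝ) 2 := by
  have h1 : Real.cos θ < 1 := by
    have := Real.cos_lt_cos_of_nonneg_of_le_pi le_rfl hθ.2.le hθ.1
    rwa [Real.cos_zero] at this
  have h2 : -1 < Real.cos θ := by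
    have := Real.cos_lt_cos_of_nonneg_of_le_pi hθ.1.le le_rfl hθ.2
    rwa [Real.cos_pi] at this
  constructor <;> linarith

lemma ae_mem : ∀ᵐ E ∂rho, E ∈ Ioo (-2 : ℝ) 2 := by
  refine (ae_rho_iff (p := fun E => E ∈ Ioo (-2 : ℝ) 2) measurableSet_Ioo).mpr ?_
  filter_upwards [ae_restrict_mem measurableSet_Ioo] with θ hθ
  exact two_cos_mem hθ

lemma integral_rho {f : ℝ → ℂ} (hf : AEStronglyMeasurable f rho) :
    ∫ E, f E ∂rho = (2 * π)⁻¹ • ∫ θ in Ioo 0 π, f (2 * Real.cos θ) := by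
  have hf' : AEStronglyMeasurable f
      (Measure.map (fun θ : ℝ => 2 * Real.cos θ) (volume.restrict (Ioo 0 π))) := by
    unfold rho at hf
    refine hf.mono_ac ?_
    refine Measure.absolutelyContinuous_of_le_smul (c := (ENNReal.ofReal ((2 * π)⁻¹))⁻¹) ?_
    rw [smul_smul, ENNReal.inv_mul_cancel const_ne ENNReal.ofReal_ne_top, one_smul]
  unfold rho
  rw [integral_smul_measure, integral_map meas_cos.aemeasurable hf',
    ENNReal.toReal_ofReal (by positivity)]

/-- Fold the circle average onto `(0, π)`. -/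
lemma fold {φ : ℂ → ℂ} (hφ : ContinuousOn φ (Metric.sphere 0 1)) :
    ∫ θ in Ioo 0 π, (φ (Complex.exp (θ * I)) + φ (Complex.exp (-θ * I))) =
      ∫ θ in (0 : ℝ)..(2 * π), φ (Complex.exp (θ * I)) := by
  have hc : Continuous (fun θ : ℝ => φ (Complex.exp (θ * I))) := by
    refine hφ.comp_continuous (by fun_prop) ?_
    intro θ
    simp
  have hc' : Continuous (fun θ : ℝ => φ (Complex.exp (-θ * I))) := by
    refine hφ.comp_continuous (by fun_prop) ?_
    intro θ
    have := Complex.norm_exp_ofReal_mul_I (-θ)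
    simpa using this
  rw [← integral_Ioc_eq_integral_Ioo, ← intervalIntegral.integral_of_le pi_pos.le,
    intervalIntegral.integral_add (hc.intervalIntegrable _ _) (hc'.intervalIntegrable _ _),
    ← intervalIntegral.integral_add_adjacent_intervals (hc.intervalIntegrable 0 π)
      (hc.intervalIntegrable π (2 * π))]
  congr 1
  have h := intervalIntegral.integral_comp_sub_left (a := 0) (b := π)
    (fun θ : ℝ => φ (Complex.exp (θ * I))) (2 * π)
  rw [show 2 * π - π = π by ring, sub_zero] at h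
  rw [← h]
  apply intervalIntegral.integral_congr
  intro θ _
  have : Complex.exp (((2 * π - θ : ℝ) : ℂ) * I) = Complex.exp (-θ * I) := by
    push_cast
    rw [show (2 * (π : ℂ) - θ) * I = -θ * I + 2 * π * I by ring, Complex.exp_add,
      Complex.exp_two_pi_mul_I, mul_one]
  simp only [this]

lemma circleAverage_eq (φ : ℂ → ℂ) :
    circleAverage φ 0 1 = (2 * π)⁻¹ • ∫ θ in (0 : ℝ)..(2 * π), φ (Complex.exp (θ * I)) := by
  simp [circleAverage, circleMap]

/-! ### The vectors `vec φ` -/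

lemma vec_inner (φ : ℂ → ℂ) (E : ℝ) (g : Fibre) :
    inner ℂ (vec φ E) g = conj (φ (zpt E 0)) * g 0 + conj (φ (zpt E 1)) * g 1 := by
  rw [vec, inner_add_left, lp.inner_single_left, lp.inner_single_left]
  simp only [RCLike.inner_apply]
  ring

lemma vec_apply_zero (φ : ℂ → ℂ) (E : ℝ) : vec φ E 0 = φ (zpt E 0) := by
  simp [vec, lp.single_apply]

lemma vec_apply_one (φ : ℂ → ℂ) (E : ℝ) : vec φ E 1 = φ (zpt E 1) := by
  simp [vec, lp.single_apply]

lemma vec_apply_ge (φ : ℂ → ℂ) (E : ℝ) (α : ℕ) (hα : 2 ≤ α) : vec φ E α = 0 := by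
  have h0 : α ≠ 0 := by omega
  have h1 : α ≠ 1 := by omega
  simp [vec, lp.single_apply, h0, h1]

lemma norm_vec_le (φ : ℂ → ℂ) (C : ℝ) (hC : ∀ z : ℂ, ‖z‖ = 1 → ‖φ z‖ ≤ C) (E : ℝ) :
    ‖vec φ E‖ ≤ C + C := by
  refine (norm_add_le _ _).trans (add_le_add ?_ ?_)
  · rw [lp.norm_single (by norm_num)]
    exact hC _ (norm_zpt _ _)
  · rw [lp.norm_single (by norm_num)]
    exact hC _ (norm_zpt _ _)

lemma vec_sm (φ : ℂ → ℂ) (hφ : ContinuousOn φ (Metric.sphere 0 1)) : Continuous (vec φ) := by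
  have h (α : ℕ) : Continuous (fun E => φ (zpt E α)) := by
    refine hφ.comp_continuous (continuous_zpt α) ?_
    intro E
    simpa using norm_zpt E α
  unfold vec
  refine Continuous.add ?_ ?_
  · exact (lp.singleContinuousLinearMap ℂ (fun _ : ℕ => ℂ) 2 0).continuous.comp (h 0)
  · exact (lp.singleContinuousLinearMap ℂ (fun _ : ℕ => ℂ) 2 1).continuous.comp (h 1)

lemma vec_memLp (φ : ℂ → ℂ) (hφ : ContinuousOn φ (Metric.sphere 0 1)) :
    MemLp (vec φ) 2 rho := by
  obtain ⟨C, hC⟩ := (isCompact_sphere (0 : ℂ) 1).exists_bound_of_continuousOn hφ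
  refine MemLp.of_bound (vec_sm φ hφ).aestronglyMeasurable (C + C) ?_
  filter_upwards with E
  refine norm_vec_le φ C ?_ E
  intro z hz
  exact hC z (by simpa using hz)

end Pool.Agent.Lib.MP_33280d_mp
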